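import Pool.Agent.Helper95.SC.Blocks

set_option linter.unusedSectionVars false

namespace SC

open Finset

variable {V : Type*} [Fintype V] [DecidableEq V]

/-- A nonempty set in a finite acyclic graph has a member with at most one neighbour in the
set. -/
theorem leaf (H : SimpleGraph V) (hH : H.IsAcyclic) (S : Finset V) (hS : S.Nonempty) :
    ∃ x ∈ S, ∀ y ∈ S, ∀ z ∈ S, H.Adj x y → H.Adj x z → y = z := by
  classical
  have hA : (H.induce (S : Set V)).IsAcyclic := hH.induce _
  have hN : Nonempty (S : Set V) := by
    obtain ⟨x, hx⟩ := hS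
    exact ⟨⟨x, hx⟩⟩
  obtain ⟨u, v, p, hp, hmax⟩ := SimpleGraph.Walk.exists_isPath_forall_isPath_length_le_length
    (H.induce (S : Set V))
  have key : ∀ w, (H.induce (S : Set V)).Adj u w → w = p.snd := by
    intro w hadj
    apply hA.eq_snd_of_adj_start hp hadj
    by_contra hw
    have h1 : (p.cons hadj.symm).IsPath := hp.cons hw
    have h2 := hmax _ _ _ h1
    rw [SimpleGraph.Walk.length_cons] at h2
    omega
  refine ⟨u.1, u.2, fun y hy z hz h1 h2 => ?_⟩
  have e1 := key ⟨y, hy⟩ h1
  have e2 := key ⟨z, hz⟩ h2
  exact congrArg Subtype.val (e1.trans e2.symm)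

theorem cons2_append_left {l : List V} {u v : V} (s : List V) (h : Cons2 l u v) :
    Cons2 (s ++ l) u v := by
  obtain ⟨pre, post, rfl⟩ := h
  exact ⟨s ++ pre, post, by simp⟩

theorem cons2_append_right {l : List V} {u v : V} (s : List V) (h : Cons2 l u v) :
    Cons2 (l ++ s) u v := by
  obtain ⟨pre, post, rfl⟩ := h
  exact ⟨pre, post ++ s, by simp⟩

/-- A consecutive pair avoiding `y` lies on one side of `y`. -/
theorem cons2_split {pre post : List V} {y u v : V} (hu : u ≠ y) (hv : v ≠ y)
    (h : Cons2 (pre ++ y :: post) u v) : Cons2 pre u v ∨ Cons2 post u v := by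
  obtain ⟨a, b, hab⟩ := h
  rcases List.append_eq_append_iff.1 hab with ⟨c, h1, h2⟩ | ⟨c, h1, h2⟩
  · cases c with
    | nil =>
      simp only [List.nil_append, List.cons.injEq] at h2
      exact absurd h2.1.symm hu
    | cons c0 c =>
      simp only [List.cons_append, List.cons.injEq] at h2
      right
      exact ⟨c, b, h2.2⟩
  · match c, h1, h2 with
    | [], h1, h2 =>
      simp only [List.nil_append, List.cons.injEq] at h2
      exact absurd h2.1 hu
    | [c0], h1, h2 =>
      simp only [List.cons_append, List.nil_append, List.cons.injEq] at h2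
      exact absurd h2.2.1 hv
    | c0 :: c1 :: c, h1, h2 =>
      simp only [List.cons_append, List.cons.injEq] at h2
      left
      refine ⟨a, c, ?_⟩
      rw [h1, h2.1, h2.2.1]

theorem nodup_insert {pre post : List V} {x : V} (h : (pre ++ post).Nodup)
    (hx : x ∉ pre ++ post) : (pre ++ x :: post).Nodup := by
  have : (pre ++ x :: post).Perm (x :: (pre ++ post)) := List.perm_middle
  rw [List.Perm.nodup_iff this, List.nodup_cons]
  exact ⟨hx, h⟩

/-- **Ordering lemma.**  A finite acyclic graph with at most two neighbours at every vertex is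
contained in a path. -/
theorem order (H : SimpleGraph V) (hH : H.IsAcyclic)
    (hdeg : ∀ x a b c, H.Adj x a → H.Adj x b → H.Adj x c → a = b ∨ a = c ∨ b = c) :
    ∀ (n : ℕ) (S : Finset V), S.card = n → ∃ l : List V, l.Nodup ∧ (∀ x, x ∈ l ↔ x ∈ S) ∧
      ∀ u ∈ S, ∀ v ∈ S, H.Adj u v → Cons2 l u v ∨ Cons2 l v u := by
  intro n
  induction n with
  | zero =>
    intro S hS
    rw [Finset.card_eq_zero] at hS
    subst hS
    exact ⟨[], List.nodup_nil, by simp, by simp⟩
  | succ n ih =>
    intro S hS
    have hne : S.Nonempty := by
      rw [← Finset.card_pos]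
      omega
    obtain ⟨x, hx, hleaf⟩ := leaf H hH S hne
    obtain ⟨l, h1, h2, h3⟩ := ih (S.erase x) (by rw [Finset.card_erase_of_mem hx]; omega)
    have hxl : x ∉ l := by
      rw [h2]
      simp
    have hmem : ∀ pre post : List V, pre ++ post = l → ∀ z, z ∈ pre ++ x :: post ↔ z ∈ S := by
      intro pre post hpp z
      have : (pre ++ x :: post).Perm (x :: (pre ++ post)) := List.perm_middle
      rw [this.mem_iff, List.mem_cons, hpp, h2, Finset.mem_erase]
      constructor
      · rintro (h | h)
        · rw [h]; exact hx
        · exact h.2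
      · intro h
        by_cases hz : z = x
        · exact Or.inl hz
        · exact Or.inr ⟨hz, h⟩
    by_cases hy : ∃ y ∈ S, H.Adj x y
    · obtain ⟨y, hyS, hxy⟩ := hy
      have hyx : y ≠ x := hxy.ne'
      have hyl : y ∈ l := by
        rw [h2]
        exact Finset.mem_erase.2 ⟨hyx, hyS⟩
      -- the general step
      have step : ∀ (l' : List V), (∀ u v, u ≠ y → v ≠ y → Cons2 l u v → Cons2 l' u v) →
          (Cons2 l' x y ∨ Cons2 l' y x) →
          (∀ z, z ≠ x → z ∈ S → H.Adj y z → Cons2 l' y z ∨ Cons2 l' z y) →
          ∀ u ∈ S, ∀ v ∈ S, H.Adj u v → Cons2 l' u v ∨ Cons2 l' v u := by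
        intro l' k1 k2 k3 u hu v hv huv
        by_cases hux : u = x
        · have : v = y := hleaf v hv y hyS (hux ▸ huv) hxy
          rw [hux, this]
          exact k2
        · by_cases hvx : v = x
          · have : u = y := hleaf u hu y hyS (hvx ▸ huv.symm) hxy
            rw [hvx, this]
            exact k2.symm
          · by_cases huy : u = y
            · rw [huy]
              exact k3 v hvx hv (huy ▸ huv)
            · by_cases hvy : v = y
              · rw [hvy]
                exact (k3 u hux hu (hvy ▸ huv.symm)).symm
              · rcases h3 u (Finset.mem_erase.2 ⟨hux, hu⟩) v (Finset.mem_erase.2 ⟨hvx, hv⟩) huv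
                  with h | h
                · exact Or.inl (k1 u v huy hvy h)
                · exact Or.inr (k1 v u hvy huy h)
      by_cases hz : ∃ z ∈ S, z ≠ x ∧ H.Adj y z
      · obtain ⟨z, hzS, hzx, hyz⟩ := hz
        have huniq : ∀ w, w ≠ x → w ∈ S → H.Adj y w → w = z := by
          intro w hwx _ hyw
          rcases hdeg y x w z hxy.symm hyw hyz with h | h | h
          · exact absurd h.symm hwx
          · exact absurd h.symm hzx
          · exact h
        rcases h3 y (Finset.mem_erase.2 ⟨hyx, hyS⟩) z (Finset.mem_erase.2 ⟨hzx, hzS⟩) hyz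
          with h | h
        · obtain ⟨pre, post, hl⟩ := h
          refine ⟨pre ++ x :: y :: z :: post, nodup_insert (hl ▸ h1) (hl ▸ hxl),
            hmem pre (y :: z :: post) hl.symm, step _ ?_ ?_ ?_⟩
          · intro u v hu hv huv
            rw [hl] at huv
            rcases cons2_split hu hv huv with h | h
            · exact cons2_append_right _ h
            · have := cons2_append_left (pre ++ [x, y]) h
              simpa using this
          · exact Or.inl ⟨pre, z :: post, rfl⟩
          · intro w hwx hw hyw
            rw [huniq w hwx hw hyw]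
            exact Or.inl ⟨pre ++ [x], post, by simp⟩
        · obtain ⟨pre, post, hl⟩ := h
          have hl' : l = (pre ++ [z, y]) ++ post := by rw [hl]; simp
          have hl2 : l = (pre ++ [z]) ++ y :: post := by rw [hl]; simp
          refine ⟨(pre ++ [z, y]) ++ x :: post, nodup_insert (hl' ▸ h1) (hl' ▸ hxl),
            hmem (pre ++ [z, y]) post hl'.symm, step _ ?_ ?_ ?_⟩
          · intro u v hu hv huv
            rw [hl2] at huv
            rcases cons2_split hu hv huv with h | h
            · have := cons2_append_right (y :: x :: post) h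
              simpa using this
            · have := cons2_append_left (pre ++ [z, y, x]) h
              simpa using this
          · exact Or.inr ⟨pre ++ [z], post, by simp⟩
          · intro w hwx hw hyw
            rw [huniq w hwx hw hyw]
            exact Or.inr ⟨pre, x :: post, by simp⟩
      · obtain ⟨pre, post, hl⟩ := List.append_of_mem hyl
        refine ⟨pre ++ x :: y :: post, nodup_insert (hl ▸ h1) (hl ▸ hxl),
          hmem pre (y :: post) hl.symm, step _ ?_ ?_ ?_⟩
        · intro u v hu hv huv
          rw [hl] at huv
          rcases cons2_split hu hv huv with h | h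
          · exact cons2_append_right _ h
          · have := cons2_append_left (pre ++ [x, y]) h
            simpa using this
        · exact Or.inl ⟨pre, post, rfl⟩
        · intro w hwx hw hyw
          exact absurd ⟨w, hw, hwx, hyw⟩ hz
    · refine ⟨[] ++ x :: l, nodup_insert (by simpa using h1) (by simpa using hxl),
        hmem [] l rfl, ?_⟩
      intro u hu v hv huv
      have hux : u ≠ x := by
        rintro rfl
        exact hy ⟨v, hv, huv⟩
      have hvx : v ≠ x := by
        rintro rfl
        exact hy ⟨u, hu, huv.symm⟩
      rcases h3 u (Finset.mem_erase.2 ⟨hux, hu⟩) v (Finset.mem_erase.2 ⟨hvx, hv⟩) huv with h | h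
      · exact Or.inl (cons2_append_left [x] h)
      · exact Or.inr (cons2_append_left [x] h)

end SC
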