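import Pool.Agent.Helper95.SC.Parity2

set_option linter.unusedSectionVars false

namespace SC

open Finset

variable {α : Type*} [Fintype α] [DecidableEq α]

theorem Z_congr_P (c d : Fin 3) (l : List α) (T : List (α × α × α)) (P P' : List (α × Fin 3))
    (h : ∀ f : α → Fin 3, wP f P = wP f P') : Z c d l T P = Z c d l T P' := by
  unfold Z
  exact Finset.sum_congr rfl (fun f _ => by rw [h f])

theorem wP_swap (f : α → Fin 3) (a b : α × Fin 3) (P : List (α × Fin 3)) :
    wP f (a :: b :: P) = wP f (b :: a :: P) := by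
  simp only [wP_cons]
  ring

/-- Swapping a member of a triple with one of the two prescribed vertices, when the smaller
counts are known to be one. -/
theorem swap_ts1 (pre post : List α) (x p q y w : α) (e e' : Fin 3)
    (T : List (α × α × α)) (hxy : x ≠ y)
    (hn : (x :: p :: q :: ent T).Nodup) (hyT : y ∉ x :: p :: q :: ent T) (hxw : x ≠ w)
    (hyw : y ≠ w)
    (hx : Away pre post x) (hy : Away pre post y)
    (i1 : Z 0 0 (pre ++ post) T [(p, e), (w, e')] = 1)
    (i2 : Z 0 0 (pre ++ post) T [(q, e), (w, e')] = 1) :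
    Z 0 0 (pre ++ x :: y :: post) ((x, p, q) :: T) [(y, e), (w, e')]
      = Z 0 0 (pre ++ y :: x :: post) ((x, p, q) :: T) [(y, e), (w, e')] := by
  simp only [List.nodup_cons, List.mem_cons, not_or] at hn hyT
  obtain ⟨⟨x1, x2, x3⟩, ⟨p1, p2⟩, q1, t1⟩ := hn
  obtain ⟨y1, y2, y3, y4⟩ := hyT
  have h := swap_ts 0 0 pre post x p q y e T [(w, e')] hxy x1 x2 y2 y3 hx hy x3 y4
    (by simpa using hxw) (by simpa using hyw)
  rw [i1, i2, two_eq] at h
  exact eq_of_add _ _ h

/-- The statement proved by induction. -/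
def CP (α : Type*) [Fintype α] [DecidableEq α] (k : ℕ) : Prop :=
  ∀ (T : List (α × α × α)), T.length = k →
    ∀ (p q : α) (l : List α), l.Nodup → (p :: q :: ent T).Nodup →
      (∀ x ∈ p :: q :: ent T, x ∈ l) → Z 0 0 l T [(p, 1), (q, 2)] = 1

theorem half_ts (k : ℕ) (ih : ∀ m < k, CP α m) (T : List (α × α × α)) (hT : T.length = k)
    (p q : α) (hn : (p :: q :: ent T).Nodup) (pre post : List α) (x y : α)
    (hnd : (pre ++ x :: y :: post).Nodup)
    (hin : ∀ z ∈ p :: q :: ent T, z ∈ pre ++ x :: y :: post) (hx : x ∈ ent T)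
    (hy : y = p ∨ y = q) :
    Z 0 0 (pre ++ x :: y :: post) T [(p, 1), (q, 2)]
      = Z 0 0 (pre ++ y :: x :: post) T [(p, 1), (q, 2)] := by
  obtain ⟨a, b, T', h1, h2, h3⟩ := extract hx
  have hn1 : (p :: q :: x :: a :: b :: ent T').Nodup := by
    rw [ent_cons] at h1
    exact (List.Perm.nodup_iff ((h1.cons q).cons p)).1 hn
  have hin1 : ∀ z ∈ p :: q :: x :: a :: b :: ent T', z ∈ pre ++ x :: y :: post := by
    intro z hz
    apply hin
    rw [ent_cons] at h1
    exact (List.Perm.mem_iff ((h1.cons q).cons p)).2 hz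
  obtain ⟨ha, hb, hxy, hnd0⟩ := away_of_nodup hnd
  rw [Z_congr_T 0 0 _ _ _ _ h3, Z_congr_T 0 0 _ _ _ _ h3]
  have hn2 := hn1
  simp only [List.nodup_cons, List.mem_cons, not_or] at hn2
  obtain ⟨⟨p1, p2, p3, p4, p5⟩, ⟨q1, q2, q3, q4⟩, ⟨x1, x2, x3⟩, ⟨a1, a2⟩, b1, t1⟩ := hn2
  have hmem : ∀ z, z ∈ (p :: q :: x :: a :: b :: ent T') → z ≠ x → z ≠ y → z ∈ pre ++ post := by
    intro z hz hzx hzy
    have := hin1 z hz
    simp only [List.mem_append, List.mem_cons] at this ⊢
    tauto
  have hlt : T'.length < k := by omega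
  rcases hy with hy | hy
  · subst hy
    refine swap_ts1 pre post x a b y q 1 2 T' hxy ?_ ?_ (fun h => q1 h.symm) p1 ha hb ?_ ?_
    · simp only [List.nodup_cons, List.mem_cons, not_or]
      exact ⟨⟨x1, x2, x3⟩, ⟨a1, a2⟩, b1, t1⟩
    · simp only [List.mem_cons, not_or]
      exact ⟨p2, p3, p4, p5⟩
    · refine ih _ hlt T' rfl a q _ hnd0 ?_ ?_
      · simp only [List.nodup_cons, List.mem_cons, not_or]
        exact ⟨⟨fun h => q2 h.symm, a2⟩, q4, t1⟩
      · intro z hz
        simp only [List.mem_cons] at hz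
        rcases hz with hz | hz | hz
        · subst hz
          exact hmem z (by simp) (fun h => x1 h.symm) (fun h => p3 h.symm)
        · subst hz
          exact hmem z (by simp) q1 (fun h => p1 h.symm)
        · exact hmem z (by simp [hz]) (fun h => x3 (h ▸ hz)) (fun h => p5 (h ▸ hz))
    · refine ih _ hlt T' rfl b q _ hnd0 ?_ ?_
      · simp only [List.nodup_cons, List.mem_cons, not_or]
        exact ⟨⟨fun h => q3 h.symm, b1⟩, q4, t1⟩
      · intro z hz
        simp only [List.mem_cons] at hz
        rcases hz with hz | hz | hz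
        · subst hz
          exact hmem z (by simp) (fun h => x2 h.symm) (fun h => p4 h.symm)
        · subst hz
          exact hmem z (by simp) q1 (fun h => p1 h.symm)
        · exact hmem z (by simp [hz]) (fun h => x3 (h ▸ hz)) (fun h => p5 (h ▸ hz))
  · subst hy
    have hs : ∀ f : α → Fin 3, wP f [(p, 1), (y, 2)] = wP f [(y, 2), (p, 1)] :=
      fun f => wP_swap f _ _ _
    rw [Z_congr_P 0 0 _ _ _ _ hs, Z_congr_P 0 0 _ _ _ _ hs]
    refine swap_ts1 pre post x a b y p 2 1 T' hxy ?_ ?_ (fun h => p2 h.symm)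
      (fun h => p1 h.symm) ha hb ?_ ?_
    · simp only [List.nodup_cons, List.mem_cons, not_or]
      exact ⟨⟨x1, x2, x3⟩, ⟨a1, a2⟩, b1, t1⟩
    · simp only [List.mem_cons, not_or]
      exact ⟨q1, q2, q3, q4⟩
    · rw [Z_congr_P 0 0 _ _ _ _ (fun f => wP_swap f (a, 2) (p, 1) [])]
      refine ih _ hlt T' rfl p a _ hnd0 ?_ ?_
      · simp only [List.nodup_cons, List.mem_cons, not_or]
        exact ⟨⟨p3, p5⟩, a2, t1⟩
      · intro z hz
        simp only [List.mem_cons] at hz
        rcases hz with hz | hz | hz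
        · subst hz
          exact hmem z (by simp) p2 p1
        · subst hz
          exact hmem z (by simp) (fun h => x1 h.symm) (fun h => q2 h.symm)
        · exact hmem z (by simp [hz]) (fun h => x3 (h ▸ hz)) (fun h => q4 (h ▸ hz))
    · rw [Z_congr_P 0 0 _ _ _ _ (fun f => wP_swap f (b, 2) (p, 1) [])]
      refine ih _ hlt T' rfl p b _ hnd0 ?_ ?_
      · simp only [List.nodup_cons, List.mem_cons, not_or]
        exact ⟨⟨p4, p5⟩, b1, t1⟩
      · intro z hz
        simp only [List.mem_cons] at hz
        rcases hz with hz | hz | hz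
        · subst hz
          exact hmem z (by simp) p2 p1
        · subst hz
          exact hmem z (by simp) (fun h => x2 h.symm) (fun h => q3 h.symm)
        · exact hmem z (by simp [hz]) (fun h => x3 (h ▸ hz)) (fun h => q4 (h ▸ hz))

/-- The two prescribed vertices as neighbours. -/
theorem half_ss (T : List (α × α × α)) (p q : α) (hn : (p :: q :: ent T).Nodup)
    (pre post : List α)
    (hnd : (pre ++ p :: q :: post).Nodup)
    (hin : ∀ z ∈ p :: q :: ent T, z ∈ pre ++ p :: q :: post) :
    Z 0 0 (pre ++ p :: q :: post) T [(p, 1), (q, 2)]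
      = Z 0 0 (pre ++ q :: p :: post) T [(p, 1), (q, 2)] := by
  obtain ⟨ha, hb, hxy, hnd0⟩ := away_of_nodup hnd
  simp only [List.nodup_cons, List.mem_cons, not_or] at hn
  obtain ⟨⟨p1, p2⟩, q1, t1⟩ := hn
  have h := swap_ss 0 0 pre post p q 1 2 T [] hxy (by decide) ha hb p2 q1 (by simp) (by simp)
  have h2 : Z 0 0 (pre ++ post) T [] = ne3 0 0 := by
    refine path_parity 0 0 T.length T rfl _ hnd0 t1 ?_
    intro z hz
    have h3 := hin z (by simp [hz])
    have h4 : z ≠ p := fun h => p2 (h ▸ hz)
    have h5 : z ≠ q := fun h => q1 (h ▸ hz)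
    simp only [List.mem_append, List.mem_cons] at h3 ⊢
    tauto
  have h3 : ne3 0 0 = 0 := by decide
  rw [h2, h3] at h
  exact eq_of_add _ _ h

theorem half_tt (k : ℕ) (ih : ∀ m < k, CP α m) (T : List (α × α × α)) (hT : T.length = k)
    (p0 q0 : α) (hn : (p0 :: q0 :: ent T).Nodup) (pre post : List α) (x y : α)
    (hnd : (pre ++ x :: y :: post).Nodup)
    (hin : ∀ z ∈ p0 :: q0 :: ent T, z ∈ pre ++ x :: y :: post) (hx : x ∈ ent T)
    (hy : y ∈ ent T) :
    Z 0 0 (pre ++ x :: y :: post) T [(p0, 1), (q0, 2)]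
      = Z 0 0 (pre ++ y :: x :: post) T [(p0, 1), (q0, 2)] := by
  have hn00 := hn
  simp only [List.nodup_cons, List.mem_cons, not_or] at hn00
  obtain ⟨⟨n1, n2⟩, n3, n4⟩ := hn00
  have xp0 : x ≠ p0 := fun h => n2 (h ▸ hx)
  have xq0 : x ≠ q0 := fun h => n3 (h ▸ hx)
  have yp0 : y ≠ p0 := fun h => n2 (h ▸ hy)
  have yq0 : y ≠ q0 := fun h => n3 (h ▸ hy)
  have hxP : x ∉ ([(p0, 1), (q0, 2)] : List (α × Fin 3)).map Prod.fst := by
    simp [xp0, xq0]
  have hyP : y ∉ ([(p0, 1), (q0, 2)] : List (α × Fin 3)).map Prod.fst := by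
    simp [yp0, yq0]
  obtain ⟨p, q, T', h1, h2, h3⟩ := extract hx
  have hn' : (ent ((x, p, q) :: T')).Nodup := (List.Perm.nodup_iff h1).1 n4
  obtain ⟨ha, hb, hxy, hnd0⟩ := away_of_nodup hnd
  rw [Z_congr_T 0 0 _ _ _ _ h3, Z_congr_T 0 0 _ _ _ _ h3]
  have hy' : y ∈ ent ((x, p, q) :: T') := (List.Perm.mem_iff h1).1 hy
  rw [ent_cons] at hy'
  rcases List.mem_cons.1 hy' with hy1 | hy1
  · exact absurd hy1.symm hxy
  · rcases List.mem_cons.1 hy1 with hy2 | hy2
    · exact swap_same' 0 0 pre post x y p q T' _ hnd hn' (Or.inl hy2) hxP hyP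
    · rcases List.mem_cons.1 hy2 with hy3 | hy3
      · exact swap_same' 0 0 pre post x y p q T' _ hnd hn' (Or.inr hy3) hxP hyP
      · obtain ⟨r, s, T'', g1, g2, g3⟩ := extract hy3
        have hc : ∀ f : α → Fin 3, wT f ((x, p, q) :: T')
            = wT f ((x, p, q) :: (y, r, s) :: T'') := by
          intro f
          rw [wT_cons, wT_cons, g3 f]
        rw [Z_congr_T 0 0 _ _ _ _ hc, Z_congr_T 0 0 _ _ _ _ hc]
        have hperm : (p0 :: q0 :: ent T).Perm
            (p0 :: q0 :: x :: p :: q :: y :: r :: s :: ent T'') := by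
          rw [ent_cons] at h1 g1
          simp only at h1 g1
          exact ((h1.trans (((g1.cons q).cons p).cons x)).cons q0).cons p0
        have hn3 := (List.Perm.nodup_iff hperm).1 hn
        simp only [List.nodup_cons, List.mem_cons, not_or] at hn3
        obtain ⟨⟨u1, u2, u3, u4, u5, u6, u7, u8⟩, ⟨v2, v3, v4, v5, v6, v7, v8⟩,
          ⟨x1, x2, x3, x4, x5, x6⟩, ⟨p1, p2, p3, p4, p5⟩, ⟨q1, q2, q3, q4⟩,
          ⟨y1, y2, y3⟩, ⟨r1, r2⟩, s1, t1⟩ := hn3
        have hst := swap_tt 0 0 pre post x p q y r s T'' [(p0, 1), (q0, 2)] hxy x1 x2 x4 x5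
          (fun hh => p2 hh.symm) (fun hh => q1 hh.symm) y1 y2 ha hb x6 y3 hxP hyP
        have hmem : ∀ z, z ∈ (p0 :: q0 :: x :: p :: q :: y :: r :: s :: ent T'') → z ≠ x → z ≠ y →
            z ∈ pre ++ post := by
          intro z hz hzx hzy
          have := hin z ((List.Perm.mem_iff hperm).2 hz)
          simp only [List.mem_append, List.mem_cons] at this ⊢
          tauto
        have i1 : Z 0 0 (pre ++ post) ((p, r, s) :: T'') [(p0, 1), (q0, 2)] = 1 := by
          refine ih (T''.length + 1) (by omega) _ (by simp) p0 q0 _ hnd0 ?_ ?_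
          · rw [ent_cons]
            simp only [List.nodup_cons, List.mem_cons, not_or]
            exact ⟨⟨u1, u3, u6, u7, u8⟩, ⟨v3, v6, v7, v8⟩, ⟨p3, p4, p5⟩, ⟨r1, r2⟩, s1, t1⟩
          · intro z hz
            rw [ent_cons] at hz
            simp only [List.mem_cons] at hz
            rcases hz with hz | hz | hz | hz | hz | hz
            · subst hz
              exact hmem z (by simp) u2 u5
            · subst hz
              exact hmem z (by simp) v2 v5
            · subst hz
              exact hmem z (by simp) (fun hh => x1 hh.symm) p2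
            · subst hz
              exact hmem z (by simp) (fun hh => x4 hh.symm) (fun hh => y1 hh.symm)
            · subst hz
              exact hmem z (by simp) (fun hh => x5 hh.symm) (fun hh => y2 hh.symm)
            · exact hmem z (by simp [hz]) (fun hh => x6 (hh ▸ hz)) (fun hh => y3 (hh ▸ hz))
        have i2 : Z 0 0 (pre ++ post) ((q, r, s) :: T'') [(p0, 1), (q0, 2)] = 1 := by
          refine ih (T''.length + 1) (by omega) _ (by simp) p0 q0 _ hnd0 ?_ ?_
          · rw [ent_cons]
            simp only [List.nodup_cons, List.mem_cons, not_or]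
            exact ⟨⟨u1, u4, u6, u7, u8⟩, ⟨v4, v6, v7, v8⟩, ⟨q2, q3, q4⟩, ⟨r1, r2⟩, s1, t1⟩
          · intro z hz
            rw [ent_cons] at hz
            simp only [List.mem_cons] at hz
            rcases hz with hz | hz | hz | hz | hz | hz
            · subst hz
              exact hmem z (by simp) u2 u5
            · subst hz
              exact hmem z (by simp) v2 v5
            · subst hz
              exact hmem z (by simp) (fun hh => x2 hh.symm) q1
            · subst hz
              exact hmem z (by simp) (fun hh => x4 hh.symm) (fun hh => y1 hh.symm)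
            · subst hz
              exact hmem z (by simp) (fun hh => x5 hh.symm) (fun hh => y2 hh.symm)
            · exact hmem z (by simp [hz]) (fun hh => x6 (hh ▸ hz)) (fun hh => y3 (hh ▸ hz))
        rw [i1, i2, two_eq] at hst
        exact eq_of_add _ _ hst

/-- **Parity theorem, cycle version.** -/
theorem cycle_parity (k : ℕ) : CP α k := by
  induction k using Nat.strong_induction_on with
  | _ k ih =>
    intro T hT p q l hl hn hsub
    have hn0 := hn
    simp only [List.nodup_cons, List.mem_cons, not_or] at hn0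
    obtain ⟨⟨n1, n2⟩, n3, n4⟩ := hn0
    have hswap : ∀ pre x y post, (pre ++ x :: y :: post).Nodup →
        (∀ z ∈ p :: q :: ent T, z ∈ pre ++ x :: y :: post) →
        Z 0 0 (pre ++ x :: y :: post) T [(p, 1), (q, 2)]
          = Z 0 0 (pre ++ y :: x :: post) T [(p, 1), (q, 2)] := by
      intro pre x y post hnd hin
      have hnd' : (pre ++ y :: x :: post).Nodup :=
        (List.Perm.nodup_iff (List.Perm.append_left pre (List.Perm.swap y x post))).1 hnd
      have hin' : ∀ z ∈ p :: q :: ent T, z ∈ pre ++ y :: x :: post := fun z hz =>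
        (List.Perm.mem_iff (List.Perm.append_left pre (List.Perm.swap y x post))).1 (hin z hz)
      have hxy : x ≠ y := (away_of_nodup hnd).2.2.1
      by_cases hxT : x ∈ ent T
      · by_cases hyT : y ∈ ent T
        · exact half_tt k ih T hT p q hn pre post x y hnd hin hxT hyT
        · by_cases hy : y = p ∨ y = q
          · exact half_ts k ih T hT p q hn pre post x y hnd hin hxT hy
          · exact remove_swap_right 0 0 pre post x y T _ hnd hyT (by simpa using hy)
      · by_cases hx : x = p ∨ x = q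
        · by_cases hyT : y ∈ ent T
          · exact (half_ts k ih T hT p q hn pre post y x hnd' hin' hyT hx).symm
          · by_cases hy : y = p ∨ y = q
            · rcases hx with hx | hx
              · rcases hy with hy | hy
                · exact absurd (hx.trans hy.symm) hxy
                · subst hx
                  subst hy
                  exact half_ss T x y hn pre post hnd hin
              · rcases hy with hy | hy
                · subst hx
                  subst hy
                  exact (half_ss T y x hn pre post hnd' hin').symm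
                · exact absurd (hx.trans hy.symm) hxy
            · exact remove_swap_right 0 0 pre post x y T _ hnd hyT (by simpa using hy)
        · exact remove_swap_left 0 0 pre post x y T _ hnd hxT (by simpa using hx)
    have m1 : p ∈ l := hsub _ (by simp)
    have m2 : q ∈ l := hsub _ (by simp)
    have m2' : q ∈ l.erase p := (List.mem_erase_of_ne (Ne.symm n1)).2 m2
    have hp : l.Perm (p :: q :: (l.erase p).erase q) :=
      (List.perm_cons_erase m1).trans ((List.perm_cons_erase m2').cons _)
    have e1 := perm_of_swap (fun l => Z 0 0 l T [(p, 1), (q, 2)]) (p :: q :: ent T) hswap hp []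
      (by simpa using hl) (by simpa using hsub)
    simp only [List.nil_append] at e1
    rw [e1]
    have hnl : (p :: q :: (l.erase p).erase q).Nodup := (List.Perm.nodup_iff hp).1 hl
    simp only [List.nodup_cons, List.mem_cons, not_or] at hnl
    obtain ⟨⟨_, k2⟩, k3, k4⟩ := hnl
    rw [special_front 0 _ p q T n1 k2 k3 n2 n3]
    rw [path_parity 2 0 T.length T rfl _ k4 n4]
    · decide
    · intro z hz
      have hz1 : z ∈ l := hsub _ (by simp [hz])
      have hz2 := (List.Perm.mem_iff hp).1 hz1
      simp only [List.mem_cons] at hz2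
      rcases hz2 with h | h | h
      · exact absurd hz (h ▸ n2)
      · exact absurd hz (h ▸ n3)
      · exact h

/-! ### From the counts to colourings -/

/-- `u` and `v` are consecutive members of the list, in this order. -/
def Cons2 (l : List α) (u v : α) : Prop := ∃ pre post, l = pre ++ u :: v :: post

theorem ne_of_chain {f : α → Fin 3} {c d : Fin 3} {l : List α} (h : chain f d c l ≠ 0)
    {u v : α} (huv : Cons2 l u v) : f u ≠ f v := by
  obtain ⟨pre, post, rfl⟩ := huv
  rw [chain_split2] at h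
  intro he
  apply h
  have : ne3 (f u) (f v) = 0 := by rw [he]; simp [ne3]
  rw [this]
  ring

theorem head_of_chain {f : α → Fin 3} {c d : Fin 3} {x : α} {l : List α}
    (h : chain f d c (x :: l) ≠ 0) : f x ≠ c := by
  intro he
  apply h
  simp only [chain]
  have : ne3 c (f x) = 0 := by rw [he]; simp [ne3]
  rw [this]
  ring

theorem last_of_chain {f : α → Fin 3} {c d : Fin 3} {x : α} {pre : List α}
    (h : chain f d c (pre ++ [x]) ≠ 0) : f x ≠ d := by
  intro he
  apply h
  rw [chain_split]
  simp only [hd]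
  have : ne3 (f x) d = 0 := by rw [he]; simp [ne3]
  rw [this]
  ring

theorem rb_ne {a b c : Fin 3} (h : rb a b c ≠ 0) : a ≠ b ∧ a ≠ c ∧ b ≠ c := by
  revert a b c; decide

theorem wT_ne {f : α → Fin 3} {T : List (α × α × α)} (h : wT f T ≠ 0) :
    ∀ t ∈ T, f t.1 ≠ f t.2.1 ∧ f t.1 ≠ f t.2.2 ∧ f t.2.1 ≠ f t.2.2 := by
  induction T with
  | nil => intro t ht; simp at ht
  | cons s T ih =>
    rw [wT_cons] at h
    intro t ht
    rcases List.mem_cons.1 ht with h1 | h1
    · subst h1
      exact rb_ne (left_ne_zero_of_mul h)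
    · exact ih (right_ne_zero_of_mul h) t h1

theorem wP_ne {f : α → Fin 3} {P : List (α × Fin 3)} (h : wP f P ≠ 0) :
    ∀ t ∈ P, f t.1 = t.2 := by
  induction P with
  | nil => intro t ht; simp at ht
  | cons s T ih =>
    rw [wP_cons] at h
    intro t ht
    rcases List.mem_cons.1 ht with h1 | h1
    · subst h1
      have := left_ne_zero_of_mul h
      by_contra h2
      exact this (by simp [eq3, h2])
    · exact ih (right_ne_zero_of_mul h) t h1

/-- Path version: a colouring exists. -/
theorem path_exists (l : List α) (T : List (α × α × α)) (hl : l.Nodup) (hn : (ent T).Nodup)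
    (hsub : ∀ x ∈ ent T, x ∈ l) :
    ∃ f : α → Fin 3, (∀ u v, Cons2 l u v → f u ≠ f v) ∧
      ∀ t ∈ T, f t.1 ≠ f t.2.1 ∧ f t.1 ≠ f t.2.2 ∧ f t.2.1 ≠ f t.2.2 := by
  have h := path_parity (α := α) 0 1 T.length T rfl l hl hn hsub
  have h1 : ne3 0 1 = 1 := by decide
  rw [h1] at h
  have h2 : Z 0 1 l T [] ≠ 0 := by rw [h]; decide
  obtain ⟨f, _, hf⟩ := Finset.exists_ne_zero_of_sum_ne_zero h2
  exact ⟨f, fun u v huv => ne_of_chain (left_ne_zero_of_mul (left_ne_zero_of_mul hf)) huv,
    wT_ne (right_ne_zero_of_mul (left_ne_zero_of_mul hf))⟩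

/-- Cycle version: a colouring exists.  The cycle is `x0` followed by the list `l`; the triple of
`x0` is `x0, p, q`. -/
theorem cycle_exists (x0 p q : α) (l : List α) (T : List (α × α × α)) (hl : (x0 :: l).Nodup)
    (hn : (x0 :: p :: q :: ent T).Nodup)
    (hsub : ∀ x ∈ p :: q :: ent T, x ∈ l) :
    ∃ f : α → Fin 3, (∀ u v, Cons2 l u v → f u ≠ f v) ∧
      (∀ x l', l = x :: l' → f x0 ≠ f x) ∧ (∀ x l', l = l' ++ [x] → f x ≠ f x0) ∧
      (f x0 ≠ f p ∧ f x0 ≠ f q ∧ f p ≠ f q) ∧
      ∀ t ∈ T, f t.1 ≠ f t.2.1 ∧ f t.1 ≠ f t.2.2 ∧ f t.2.1 ≠ f t.2.2 := by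
  rw [List.nodup_cons] at hl hn
  have h := cycle_parity (α := α) T.length T rfl p q l hl.2 hn.2 hsub
  have h2 : Z 0 0 l T [(p, 1), (q, 2)] ≠ 0 := by rw [h]; decide
  obtain ⟨f, _, hf⟩ := Finset.exists_ne_zero_of_sum_ne_zero h2
  have hch := left_ne_zero_of_mul (left_ne_zero_of_mul hf)
  have hT := wT_ne (right_ne_zero_of_mul (left_ne_zero_of_mul hf))
  have hP := wP_ne (right_ne_zero_of_mul hf)
  have hp : f p = 1 := hP (p, 1) (by simp)
  have hq : f q = 2 := hP (q, 2) (by simp)
  set g := Function.update f x0 0 with hg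
  have g0 : g x0 = 0 := by rw [hg, Function.update_self]
  have gl : ∀ x, x ≠ x0 → g x = f x := fun x hx => Function.update_of_ne hx _ _
  have hpx : p ≠ x0 := fun h => hn.1 (by simp [h])
  have hqx : q ≠ x0 := fun h => hn.1 (by simp [h])
  refine ⟨g, ?_, ?_, ?_, ?_, ?_⟩
  · intro u v huv
    have hu : u ≠ x0 := by
      rintro rfl
      obtain ⟨pre, post, rfl⟩ := huv
      exact hl.1 (by simp)
    have hv : v ≠ x0 := by
      rintro rfl
      obtain ⟨pre, post, rfl⟩ := huv
      exact hl.1 (by simp)
    rw [gl u hu, gl v hv]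
    exact ne_of_chain hch huv
  · intro x l' hx
    have hx0 : x ≠ x0 := by
      rintro rfl
      exact hl.1 (by simp [hx])
    rw [g0, gl x hx0]
    rw [hx] at hch
    exact (head_of_chain hch).symm
  · intro x l' hx
    have hx0 : x ≠ x0 := by
      rintro rfl
      exact hl.1 (by simp [hx])
    rw [g0, gl x hx0]
    rw [hx] at hch
    exact last_of_chain hch
  · rw [g0, gl p hpx, gl q hqx, hp, hq]
    decide
  · intro t ht
    have hmem : ∀ z ∈ [t.1, t.2.1, t.2.2], z ∈ ent T := by
      intro z hz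
      unfold ent
      rw [List.mem_flatMap]
      exact ⟨t, ht, hz⟩
    have hne : ∀ z ∈ [t.1, t.2.1, t.2.2], z ≠ x0 := by
      intro z hz h0
      exact hn.1 (by simp [← h0, hmem z hz])
    rw [gl _ (hne t.1 (by simp)), gl _ (hne t.2.1 (by simp)), gl _ (hne t.2.2 (by simp))]
    exact hT t ht

end SC
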