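import Mathlib

/-!
# Strong colouring: definitions
-/

namespace SC

/-- The graph obtained from `G` by adding `r` new isolated vertices. -/
def pad {V : Type} (G : SimpleGraph V) (r : ℕ) : SimpleGraph (V ⊕ Fin r) :=
  SimpleGraph.sum G (⊥ : SimpleGraph (Fin r))

/-- For every partition of the vertices into blocks of size `k` (an equivalence relation all of
whose classes have exactly `k` elements) there is a proper colouring with `k` colours such that
every block contains a vertex of every colour. -/
def StrongOn {W : Type} (G : SimpleGraph W) (k : ℕ) : Prop :=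
  ∀ s : Setoid W, (∀ w, {x | s x w}.ncard = k) →
    ∃ c : W → Fin k, (∀ u v, G.Adj u v → c u ≠ c v) ∧ ∀ w i, ∃ x, s x w ∧ c x = i

/-- `G` is strongly `k`-colourable: `StrongOn` holds for `G` together with
`k * ⌈n / k⌉ - n` new isolated vertices, where `n` is the number of vertices of `G`. -/
def StronglyColourable {V : Type} [Fintype V] (G : SimpleGraph V) (k : ℕ) : Prop :=
  StrongOn (pad G (k * ((Fintype.card V + k - 1) / k) - Fintype.card V)) k

/-- The strong chromatic number. -/
noncomputable def schi {V : Type} [Fintype V] (G : SimpleGraph V) : ℕ :=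
  sInf {k | 0 < k ∧ StronglyColourable G k}

/-- Every cycle of `F` contains both ends of an edge of `H`. -/
def CycleChord {V : Type} (F H : SimpleGraph V) : Prop :=
  ∀ (v : V) (p : F.Walk v v), p.IsCycle → ∃ x ∈ p.support, ∃ y ∈ p.support, H.Adj x y

end SC
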