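import Pool.Agent.Helper95.SC.Main2

set_option linter.unusedSectionVars false

namespace SC

open Finset

/-- The complete bipartite graph with sides of size three. -/
abbrev K33 : SimpleGraph (Fin 3 ⊕ Fin 3) := completeBipartiteGraph (Fin 3) (Fin 3)

theorem k33_adj (i j : Fin 3) : K33.Adj (Sum.inl i) (Sum.inr j) := by
  simp [K33]

theorem k33_adj' (i j : Fin 3) : K33.Adj (Sum.inr i) (Sum.inl j) := by
  simp [K33]

/-- A Hamiltonian cycle. -/
def cyc : K33.Walk (Sum.inl 0) (Sum.inl 0) :=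
  .cons (k33_adj 0 0) (.cons (k33_adj' 0 1) (.cons (k33_adj 1 1) (.cons (k33_adj' 1 2)
    (.cons (k33_adj 2 2) (.cons (k33_adj' 2 0) .nil)))))

theorem k33_ham : K33.IsHamiltonian := by
  intro _
  refine ⟨Sum.inl 0, cyc, ?_⟩
  rw [SimpleGraph.Walk.isHamiltonianCycle_iff_isCycle_and_length_eq]
  refine ⟨?_, rfl⟩
  rw [SimpleGraph.Walk.isCycle_def, SimpleGraph.Walk.isTrail_def]
  refine ⟨?_, ?_, ?_⟩
  · simp only [cyc, SimpleGraph.Walk.edges_cons, SimpleGraph.Walk.edges_nil]
    decide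
  · simp [cyc]
  · simp only [cyc, SimpleGraph.Walk.support_cons, SimpleGraph.Walk.support_nil]
    decide

theorem k33_deg (v : Fin 3 ⊕ Fin 3) : (K33.neighborSet v).ncard = 3 := by
  cases v with
  | inl i =>
    have : K33.neighborSet (Sum.inl i) = Set.range (Sum.inr : Fin 3 → Fin 3 ⊕ Fin 3) := by
      ext y
      cases y <;> simp [K33]
    rw [this, ← Set.image_univ, Set.ncard_image_of_injective _ Sum.inr_injective]
    simp
  | inr i =>
    have : K33.neighborSet (Sum.inr i) = Set.range (Sum.inl : Fin 3 → Fin 3 ⊕ Fin 3) := by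
      ext y
      cases y <;> simp [K33]
    rw [this, ← Set.image_univ, Set.ncard_image_of_injective _ Sum.inl_injective]
    simp

theorem strongOn_fun {W : Type} [Fintype W] [DecidableEq W] {G : SimpleGraph W} {k m : ℕ}
    (h : StrongOn G k) (b : W → Fin m)
    (hb : ∀ w, (Finset.univ.filter (fun x => b x = b w)).card = k) :
    ∃ c : W → Fin k, (∀ u v, G.Adj u v → c u ≠ c v) ∧ ∀ u v, b u = b v → c u = c v → u = v := by
  obtain ⟨c, h1, h2⟩ := h (Setoid.ker b) (by
    intro w
    have : {x | (Setoid.ker b) x w} = ((Finset.univ.filter (fun x => b x = b w) : Finset W) : Set W) := by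
      ext x
      exact ⟨fun h => by simpa using h, fun h => by simpa using h⟩
    rw [this, Set.ncard_coe_finset]
    exact hb w)
  refine ⟨c, h1, fun u v huv hc => ?_⟩
  have himg : (Finset.univ.filter (fun x => b x = b u)).image c = Finset.univ := by
    ext i
    simp only [Finset.mem_image, Finset.mem_filter, Finset.mem_univ, true_and, iff_true]
    obtain ⟨x, hx, hi⟩ := h2 u i
    exact ⟨x, hx, hi⟩
  have hcard : ((Finset.univ.filter (fun x => b x = b u)).image c).card
      = (Finset.univ.filter (fun x => b x = b u)).card := by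
    rw [himg, hb u]
    simp
  have hinj := Finset.card_image_iff.1 hcard
  exact hinj (by simp) (by simp [huv]) hc

/-- Blocks for `k = 2`. -/
def b2 : (Fin 3 ⊕ Fin 3) ⊕ Fin 0 → Fin 3
  | Sum.inl (Sum.inl i) => if i = 2 then 1 else 0
  | Sum.inl (Sum.inr i) => if i = 0 then 1 else 2
  | Sum.inr i => i.elim0

/-- Blocks for `k = 3`. -/
def b3 : (Fin 3 ⊕ Fin 3) ⊕ Fin 0 → Fin 2
  | Sum.inl (Sum.inl i) => if i = 2 then 1 else 0
  | Sum.inl (Sum.inr i) => if i = 0 then 0 else 1
  | Sum.inr i => i.elim0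

/-- Blocks for `k = 4`. -/
def b4 : (Fin 3 ⊕ Fin 3) ⊕ Fin 2 → Fin 2
  | Sum.inl (Sum.inl _) => 0
  | Sum.inl (Sum.inr _) => 1
  | Sum.inr i => i

/-- Blocks for `k = 5`. -/
def b5 : (Fin 3 ⊕ Fin 3) ⊕ Fin 4 → Fin 2
  | Sum.inl (Sum.inl _) => 0
  | Sum.inl (Sum.inr _) => 1
  | Sum.inr i => if i.val < 2 then 0 else 1

theorem k33_card : Fintype.card (Fin 3 ⊕ Fin 3) = 6 := by simp

theorem k33_not (k : ℕ) (hk : 0 < k) (hk6 : k < 6) : ¬ StronglyColourable K33 k := by
  intro h
  unfold StronglyColourable at h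
  rw [k33_card] at h
  interval_cases k
  · -- k = 1
    have hr : 1 * ((6 + 1 - 1) / 1) - 6 = 0 := by decide
    rw [hr] at h
    obtain ⟨c, h1, _⟩ := h ⊥ (by
      intro w
      have : {x | (⊥ : Setoid ((Fin 3 ⊕ Fin 3) ⊕ Fin 0)) x w} = {w} := by
        ext x
        simp
      rw [this]
      simp)
    exact h1 _ _ ((pad_adj_inl K33 0 _ _).2 (k33_adj 0 0)) (Subsingleton.elim _ _)
  · have hr : 2 * ((6 + 2 - 1) / 2) - 6 = 0 := by decide
    rw [hr] at h
    obtain ⟨c, h1, h2⟩ := strongOn_fun h b2 (by decide)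
    have a1 : c (Sum.inl (Sum.inl 0)) ≠ c (Sum.inl (Sum.inl 1)) := by
      intro h
      have := h2 _ _ (by decide) h
      revert this
      decide
    have a2 := h1 _ _ ((pad_adj_inl K33 0 _ _).2 (k33_adj 0 0))
    have a3 := h1 _ _ ((pad_adj_inl K33 0 _ _).2 (k33_adj 1 0))
    have : ∀ x y z : Fin 2, x ≠ y → x ≠ z → y ≠ z → False := by decide
    exact this _ _ _ a1 a2 a3
  · have hr : 3 * ((6 + 3 - 1) / 3) - 6 = 0 := by decide
    rw [hr] at h
    obtain ⟨c, h1, h2⟩ := strongOn_fun h b3 (by decide)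
    have a1 : c (Sum.inl (Sum.inl 0)) ≠ c (Sum.inl (Sum.inl 1)) := by
      intro h
      have := h2 _ _ (by decide) h
      revert this
      decide
    have a1' : c (Sum.inl (Sum.inr 1)) ≠ c (Sum.inl (Sum.inr 2)) := by
      intro h
      have := h2 _ _ (by decide) h
      revert this
      decide
    have a2 := h1 _ _ ((pad_adj_inl K33 0 _ _).2 (k33_adj 0 1))
    have a3 := h1 _ _ ((pad_adj_inl K33 0 _ _).2 (k33_adj 0 2))
    have a4 := h1 _ _ ((pad_adj_inl K33 0 _ _).2 (k33_adj 1 1))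
    have a5 := h1 _ _ ((pad_adj_inl K33 0 _ _).2 (k33_adj 1 2))
    have : ∀ x y z t : Fin 3, ¬ (x ≠ y ∧ z ≠ t ∧ x ≠ z ∧ x ≠ t ∧ y ≠ z ∧ y ≠ t) := by decide
    exact this _ _ _ _ ⟨a1, a1', a2, a3, a4, a5⟩
  · have hr : 4 * ((6 + 4 - 1) / 4) - 6 = 2 := by decide
    rw [hr] at h
    obtain ⟨c, h1, h2⟩ := strongOn_fun h b4 (by decide)
    have hinj : Function.Injective (fun x : Fin 3 ⊕ Fin 3 => c (Sum.inl x)) := by
      intro x y hxy
      cases x with
      | inl i =>
        cases y with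
        | inl j => exact Sum.inl_injective (h2 _ _ rfl hxy)
        | inr j => exact absurd hxy (h1 _ _ ((pad_adj_inl K33 2 _ _).2 (k33_adj i j)))
      | inr i =>
        cases y with
        | inl j => exact absurd hxy (h1 _ _ ((pad_adj_inl K33 2 _ _).2 (k33_adj' i j)))
        | inr j => exact Sum.inl_injective (h2 _ _ rfl hxy)
    have := Fintype.card_le_of_injective _ hinj
    simp at this
  · have hr : 5 * ((6 + 5 - 1) / 5) - 6 = 4 := by decide
    rw [hr] at h
    obtain ⟨c, h1, h2⟩ := strongOn_fun h b5 (by decide)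
    have hinj : Function.Injective (fun x : Fin 3 ⊕ Fin 3 => c (Sum.inl x)) := by
      intro x y hxy
      cases x with
      | inl i =>
        cases y with
        | inl j => exact Sum.inl_injective (h2 _ _ rfl hxy)
        | inr j => exact absurd hxy (h1 _ _ ((pad_adj_inl K33 4 _ _).2 (k33_adj i j)))
      | inr i =>
        cases y with
        | inl j => exact absurd hxy (h1 _ _ ((pad_adj_inl K33 4 _ _).2 (k33_adj' i j)))
        | inr j => exact Sum.inl_injective (h2 _ _ rfl hxy)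
    have := Fintype.card_le_of_injective _ hinj
    simp at this

theorem schi_le {V : Type} [Fintype V] (G : SimpleGraph V) (k : ℕ) (hk : 0 < k)
    (h : StronglyColourable G k) : schi G ≤ k := Nat.sInf_le ⟨hk, h⟩

theorem k33_schi : schi K33 = 6 := by
  apply le_antisymm
  · exact schi_le _ 6 (by norm_num) (partB K33 k33_ham (fun v => (k33_deg v).le) ⟨Sum.inl 0, k33_deg _⟩)
  · have hne : {k | 0 < k ∧ StronglyColourable K33 k}.Nonempty :=
      ⟨6, by norm_num, partB K33 k33_ham (fun v => (k33_deg v).le) ⟨Sum.inl 0, k33_deg _⟩⟩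
    have h := Nat.sInf_mem hne
    by_contra hlt
    exact k33_not _ h.1 (not_le.1 hlt) h.2

end SC
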