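import Pool.Agent.Helper95.SC.Order
import Pool.Agent.Helper95.SC.Defs

set_option linter.unusedSectionVars false

namespace SC

open Finset

/-- Strong colourability in terms of equivalences with a product. -/
def Sys {W : Type} (G : SimpleGraph W) (k : ℕ) : Prop :=
  ∀ (κ : Type) [Fintype κ] [DecidableEq κ] (e : W ≃ κ × Fin k),
    ∃ g : W → Fin k, (∀ u v, G.Adj u v → g u ≠ g v) ∧
      ∀ u v, (e u).1 = (e v).1 → g u = g v → u = v

theorem strongOn_of_sys {W : Type} [Finite W] (G : SimpleGraph W) (k : ℕ)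
    (h : Sys G k) : StrongOn G k := by
  classical
  intro s hs
  have : Fintype W := Fintype.ofFinite W
  have hcard : ∀ q : Quotient s, Nonempty ({w : W // Quotient.mk s w = q} ≃ Fin k) := by
    intro q
    induction q using Quotient.inductionOn with
    | _ w =>
      have h1 : Nat.card {x : W // Quotient.mk s x = Quotient.mk s w} = k := by
        rw [← hs w]
        rw [← Nat.card_coe_set_eq]
        apply Nat.card_congr
        refine Equiv.subtypeEquivRight (fun x => ?_)
        rw [Quotient.eq]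
        rfl
      have h2 : Fintype.card {x : W // Quotient.mk s x = Quotient.mk s w} = Fintype.card (Fin k) := by
        rw [Fintype.card_fin, ← Nat.card_eq_fintype_card, h1]
      exact ⟨Fintype.equivOfCardEq h2⟩
  let eq : ∀ q : Quotient s, {w : W // Quotient.mk s w = q} ≃ Fin k := fun q => (hcard q).some
  let e : W ≃ Quotient s × Fin k :=
    ((Equiv.sigmaFiberEquiv (fun w : W => Quotient.mk s w)).symm.trans
      (Equiv.sigmaCongrRight eq)).trans (Equiv.sigmaEquivProd _ _)
  have he : ∀ w, (e w).1 = Quotient.mk s w := fun w => rfl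
  obtain ⟨c, h1, h2⟩ := h (Quotient s) e
  refine ⟨c, h1, fun w i => ?_⟩
  have hinj : Function.Injective (fun j : Fin k => c (e.symm (Quotient.mk s w, j))) := by
    intro i j hij
    have := h2 _ _ (by simp) hij
    exact congrArg Prod.snd (e.symm.injective this)
  obtain ⟨j, hj⟩ := (Finite.injective_iff_surjective.1 hinj) i
  refine ⟨e.symm (Quotient.mk s w, j), ?_, hj⟩
  have h3 : Quotient.mk s (e.symm (Quotient.mk s w, j)) = Quotient.mk s w := by
    rw [← he]
    simp
  exact Quotient.exact h3

/-- Conversely. -/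
theorem sys_of_strongOn {W : Type} [Finite W] (G : SimpleGraph W) (k : ℕ)
    (h : StrongOn G k) : Sys G k := by
  classical
  intro κ _ _ e
  let s : Setoid W := Setoid.ker (fun w => (e w).1)
  obtain ⟨c, h1, h2⟩ := h s (by
    intro w
    have : {x | s x w} = e ⁻¹' (({(e w).1} : Set κ) ×ˢ (Set.univ : Set (Fin k))) := by
      ext x
      simp only [Set.mem_ofPred_eq, Set.mem_preimage, Set.mem_prod, Set.mem_singleton_iff,
        Set.mem_univ, and_true]
      rfl
    rw [this, Set.ncard_preimage_of_injective_subset_range e.injective (by simp),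
      Set.ncard_prod]
    simp)
  refine ⟨c, h1, fun u v huv hc => ?_⟩
  have hsurj : Function.Surjective (fun j : Fin k => c (e.symm ((e u).1, j))) := by
    intro i
    obtain ⟨x, hx, hi⟩ := h2 u i
    have hx' : (e x).1 = (e u).1 := hx
    refine ⟨(e x).2, ?_⟩
    have : e.symm ((e u).1, (e x).2) = x := by
      rw [Equiv.symm_apply_eq, ← hx']
    simp only [this, hi]
  have hinj := Finite.injective_iff_surjective.2 hsurj
  have e1 : e.symm ((e u).1, (e u).2) = u := by simp
  have e2 : e.symm ((e u).1, (e v).2) = v := by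
    rw [Equiv.symm_apply_eq, huv]
  have h3 : (e u).2 = (e v).2 := by
    apply hinj
    simp only [e1, e2, hc]
  rw [← e1, h3, e2]

/-- **Product lemma.** -/
theorem product {W : Type} [Fintype W] [DecidableEq W] (G1 G2 : SimpleGraph W) (a : ℕ)
    (h1 : Sys G1 a)
    (h2 : ∀ g : W → Fin a, (∀ u v, G1.Adj u v → g u ≠ g v) →
      ∃ l : List W, l.Nodup ∧ (∀ w, w ∈ l) ∧
        ∀ u v, G2.Adj u v → g u = g v → Cons2 l u v ∨ Cons2 l v u) :
    Sys (G1 ⊔ G2) (a * 3) := by
  intro κ _ _ e
  let e' : W ≃ (κ × Fin 3) × Fin a :=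
    (e.trans ((Equiv.refl κ).prodCongr (finProdFinEquiv.symm.trans (Equiv.prodComm _ _)))).trans
      (Equiv.prodAssoc _ _ _).symm
  have he' : ∀ w, (e' w).1.1 = (e w).1 := fun w => rfl
  obtain ⟨g, hg1, hg2⟩ := h1 (κ × Fin 3) e'
  obtain ⟨l, hl1, hl2, hl3⟩ := h2 g hg1
  let φ : W → (κ × Fin a) × Fin 3 := fun w => (((e w).1, g w), (e' w).1.2)
  have hφ : Function.Injective φ := by
    intro u v huv
    have a1 : (e u).1 = (e v).1 := congrArg (fun t => t.1.1) huv
    have a2 : g u = g v := congrArg (fun t => t.1.2) huv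
    have a3 : (e' u).1.2 = (e' v).1.2 := congrArg (fun t => t.2) huv
    exact hg2 u v (Prod.ext (by rw [he', he', a1]) a3) a2
  have hcard : Fintype.card W = Fintype.card ((κ × Fin a) × Fin 3) := by
    rw [Fintype.card_congr e]
    simp only [Fintype.card_prod, Fintype.card_fin]
    ring
  have hbij : Function.Bijective φ := (Fintype.bijective_iff_injective_and_card φ).2 ⟨hφ, hcard⟩
  let e'' : W ≃ (κ × Fin a) × Fin 3 := Equiv.ofBijective φ hbij
  have he'' : ∀ w, (e'' w).1 = ((e w).1, g w) := fun w => rfl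
  obtain ⟨f, hf1, hf2⟩ := path_blocks e'' l hl1 hl2
  refine ⟨fun w => finProdFinEquiv (g w, f w), ?_, ?_⟩
  · intro u v huv hc
    have hc' := finProdFinEquiv.injective hc
    have c1 : g u = g v := congrArg Prod.fst hc'
    have c2 : f u = f v := congrArg Prod.snd hc'
    rcases huv with huv | huv
    · exact hg1 u v huv c1
    · rcases hl3 u v huv c1 with h | h
      · exact hf1 u v h c2
      · exact hf1 v u h c2.symm
  · intro u v huv hc
    have hc' := finProdFinEquiv.injective hc
    have c1 : g u = g v := congrArg Prod.fst hc'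
    have c2 : f u = f v := congrArg Prod.snd hc'
    exact hf2 u v (by rw [he'', he'', huv, c1]) c2

/-- A matching is strongly two-colourable. -/
theorem sys_matching {W : Type} [Finite W] (M : SimpleGraph W)
    (hM : ∀ x a b, M.Adj x a → M.Adj x b → a = b) : Sys M 2 := by
  classical
  intro κ _ _ e
  let P : W → W := fun w => e.symm ((e w).1, 1 - (e w).2)
  have hP : ∀ w, P (P w) = w := by
    intro w
    simp [P]
  have hPf : ∀ w, P w ≠ w := by
    intro w h
    have h1 : (e w).1 = (e w).1 ∧ 1 - (e w).2 = (e w).2 := by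
      have := congrArg e h
      simp only [P, Equiv.apply_symm_apply] at this
      exact ⟨rfl, congrArg Prod.snd this⟩
    have h2 : ∀ i : Fin 2, 1 - i ≠ i := by decide
    exact h2 _ h1.2
  let Mu : W → W := fun w => if h : ∃ y, M.Adj w y then h.choose else w
  have hMu1 : ∀ w y, M.Adj w y → Mu w = y := by
    intro w y hy
    have h : ∃ y, M.Adj w y := ⟨y, hy⟩
    simp only [Mu, h, dif_pos]
    exact hM w _ _ h.choose_spec hy
  have hMu : ∀ w, Mu (Mu w) = w := by
    intro w
    by_cases h : ∃ y, M.Adj w y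
    · obtain ⟨y, hy⟩ := h
      rw [hMu1 w y hy, hMu1 y w hy.symm]
    · have : Mu w = w := by simp only [Mu, h, dif_neg, not_false_eq_true]
      rw [this, this]
  obtain ⟨c, hc1, hc2⟩ := two_involutions' P Mu hP hPf hMu
  have hb : ∀ a b : Bool, (bif a then (1 : Fin 2) else 0) = (bif b then (1 : Fin 2) else 0) →
      a = b := by decide
  refine ⟨fun w => bif c w then 1 else 0, ?_, ?_⟩
  · intro u v huv h
    have h1 := hb _ _ h
    have h2 := hc2 u (by rw [hMu1 u v huv]; exact huv.ne')
    rw [hMu1 u v huv, ← h1] at h2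
    cases h3 : c u <;> simp [h3] at h2
  · intro u v huv h
    have h1 := hb _ _ h
    have h3 : ∀ i j : Fin 2, j = i ∨ j = 1 - i := by decide
    rcases h3 (e u).2 (e v).2 with h4 | h4
    · apply e.injective
      exact Prod.ext huv h4.symm
    · have h5 : v = P u := by
        simp only [P]
        rw [Equiv.eq_symm_apply, ← h4, huv]
      have h6 := hc1 u
      rw [← h5, ← h1] at h6
      cases h7 : c u <;> simp [h7] at h6

/-! ### Enumerating the padded graph -/

theorem pad_adj_inl {V : Type} (G : SimpleGraph V) (r : ℕ) (u v : V) :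
    (pad G r).Adj (Sum.inl u) (Sum.inl v) ↔ G.Adj u v := by
  unfold pad
  exact SimpleGraph.sum_adj_inl

theorem pad_adj {V : Type} (G : SimpleGraph V) (r : ℕ) (u v : V ⊕ Fin r)
    (h : (pad G r).Adj u v) : ∃ a b, u = Sum.inl a ∧ v = Sum.inl b ∧ G.Adj a b := by
  cases u with
  | inl a =>
    cases v with
    | inl b => exact ⟨a, b, rfl, rfl, (pad_adj_inl G r a b).1 h⟩
    | inr b => simp [pad] at h
  | inr a =>
    cases v with
    | inl b => simp [pad] at h
    | inr b => simp [pad] at h

theorem cons2_map {V W : Type} (f : V → W) {l : List V} {u v : V} (h : Cons2 l u v) :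
    Cons2 (l.map f) (f u) (f v) := by
  obtain ⟨pre, post, rfl⟩ := h
  exact ⟨pre.map f, post.map f, by simp⟩

theorem pad_list {V : Type} (r : ℕ) (l : List V) (hl : l.Nodup)
    (hall : ∀ v, v ∈ l) :
    (l.map Sum.inl ++ (List.finRange r).map Sum.inr : List (V ⊕ Fin r)).Nodup ∧
      ∀ w, w ∈ (l.map Sum.inl ++ (List.finRange r).map Sum.inr : List (V ⊕ Fin r)) := by
  constructor
  · rw [List.nodup_append]
    refine ⟨hl.map Sum.inl_injective, (List.nodup_finRange r).map Sum.inr_injective, ?_⟩
    intro a ha b hb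
    rw [List.mem_map] at ha hb
    obtain ⟨a', _, rfl⟩ := ha
    obtain ⟨b', _, rfl⟩ := hb
    simp
  · intro w
    cases w with
    | inl v => simp [hall v]
    | inr i => simp

/-- The lists needed in the product lemma. -/
theorem lists {V : Type} [Fintype V] [DecidableEq V] (M F : SimpleGraph V) (r a : ℕ)
    (hF : ∀ x a b c, F.Adj x a → F.Adj x b → F.Adj x c → a = b ∨ a = c ∨ b = c)
    (hcyc : ∀ (v : V) (p : F.Walk v v), p.IsCycle → ∃ x ∈ p.support, ∃ y ∈ p.support, M.Adj x y)
    (g : V ⊕ Fin r → Fin a) (hg : ∀ u v, (pad M r).Adj u v → g u ≠ g v) :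
    ∃ l : List (V ⊕ Fin r), l.Nodup ∧ (∀ w, w ∈ l) ∧
      ∀ u v, (pad F r).Adj u v → g u = g v → Cons2 l u v ∨ Cons2 l v u := by
  let H : SimpleGraph V :=
    { Adj := fun u v => F.Adj u v ∧ g (Sum.inl u) = g (Sum.inl v)
      symm := ⟨fun u v h => ⟨h.1.symm, h.2.symm⟩⟩
      loopless := ⟨fun u h => F.loopless.irrefl u h.1⟩ }
  have hle : H ≤ F := fun u v h => h.1
  have hconst : ∀ (u v : V) (p : H.Walk u v), ∀ x ∈ p.support, g (Sum.inl x) = g (Sum.inl u) := by
    intro u v p
    induction p with
    | nil =>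
      intro x hx
      simp only [SimpleGraph.Walk.support_nil, List.mem_singleton] at hx
      rw [hx]
    | cons h p ih =>
      intro x hx
      rw [SimpleGraph.Walk.support_cons, List.mem_cons] at hx
      rcases hx with hx | hx
      · rw [hx]
      · rw [ih x hx, h.2]
  have hac : H.IsAcyclic := by
    intro v p hp
    obtain ⟨x, hx, y, hy, hxy⟩ := hcyc v (p.mapLe hle) (hp.mapLe hle)
    rw [SimpleGraph.Walk.support_mapLe_eq_support] at hx hy
    apply hg (Sum.inl x) (Sum.inl y) ((pad_adj_inl M r x y).2 hxy)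
    rw [hconst v v p x hx, hconst v v p y hy]
  obtain ⟨l, h1, h2, h3⟩ := order H hac
    (fun x a b c ha hb hc => hF x a b c ha.1 hb.1 hc.1) _ Finset.univ rfl
  obtain ⟨k1, k2⟩ := pad_list r l h1 (fun v => (h2 v).2 (Finset.mem_univ v))
  refine ⟨_, k1, k2, ?_⟩
  intro u v huv hguv
  obtain ⟨a, b, rfl, rfl, hab⟩ := pad_adj F r u v huv
  rcases h3 a (Finset.mem_univ _) b (Finset.mem_univ _) ⟨hab, hguv⟩ with h | h
  · exact Or.inl (cons2_append_right _ (cons2_map Sum.inl h))
  · exact Or.inr (cons2_append_right _ (cons2_map Sum.inl h))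

end SC
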