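import Pool.Agent.Helper95.SC.K33

set_option linter.unusedSectionVars false

namespace SC

open Finset

/-- A linear forest with isolated vertices added is strongly three-colourable. -/
theorem sys_linear {V : Type} [Fintype V] [DecidableEq V] (L : SimpleGraph V) (r : ℕ)
    (hL : ∀ v, (L.neighborSet v).ncard ≤ 2) (hac : L.IsAcyclic) : Sys (pad L r) 3 := by
  intro κ _ _ e
  obtain ⟨l, h1, h2, h3⟩ := order L hac (three_of_ncard L hL) _ Finset.univ rfl
  obtain ⟨k1, k2⟩ := pad_list r l h1 (fun v => (h2 v).2 (Finset.mem_univ v))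
  obtain ⟨f, f1, f2⟩ := path_blocks e _ k1 k2
  refine ⟨f, ?_, f2⟩
  intro u v huv
  obtain ⟨a, b, rfl, rfl, hab⟩ := pad_adj L r u v huv
  rcases h3 a (Finset.mem_univ _) b (Finset.mem_univ _) hab with h | h
  · exact f1 _ _ (cons2_append_right _ (cons2_map Sum.inl h))
  · exact (f1 _ _ (cons2_append_right _ (cons2_map Sum.inl h))).symm

/-- A linear forest and a graph with at most two neighbours at every vertex. -/
theorem partF {V : Type} [Fintype V] (G L F : SimpleGraph V)
    (hG : ∀ u v, G.Adj u v → L.Adj u v ∨ F.Adj u v)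
    (hL : ∀ v, (L.neighborSet v).ncard ≤ 2) (hac : L.IsAcyclic)
    (hF : ∀ v, (F.neighborSet v).ncard ≤ 2) (hc : CycleChord F L) :
    StronglyColourable G 9 := by
  classical
  unfold StronglyColourable
  exact product_pad G L F _ 3 hG hF hc (sys_linear L _ hL hac)

end SC
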