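import Pool.Agent.Helper95.SC.Parity3

set_option linter.unusedSectionVars false

namespace SC

open Finset

variable {W κ : Type*} [Fintype W] [DecidableEq W] [Fintype κ] [DecidableEq κ]

/-- The triple with label `k`. -/
def trip (e : W ≃ κ × Fin 3) (k : κ) : W × W × W := (e.symm (k, 0), e.symm (k, 1), e.symm (k, 2))

theorem mem_ent_trip (e : W ≃ κ × Fin 3) (L : List κ) (w : W) :
    w ∈ ent (L.map (trip e)) ↔ (e w).1 ∈ L := by
  unfold ent
  rw [List.mem_flatMap]
  constructor
  · rintro ⟨t, ht, hw⟩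
    rw [List.mem_map] at ht
    obtain ⟨k, hk, rfl⟩ := ht
    simp only [trip, List.mem_cons, List.not_mem_nil, or_false] at hw
    rcases hw with h | h | h <;> · subst h; simpa using hk
  · intro h
    refine ⟨trip e (e w).1, List.mem_map_of_mem h, ?_⟩
    have h3 : ∀ i : Fin 3, i = 0 ∨ i = 1 ∨ i = 2 := by decide
    simp only [trip, List.mem_cons, List.not_mem_nil, or_false]
    rcases h3 (e w).2 with h | h | h
    · left
      rw [Equiv.eq_symm_apply, ← h]
    · right; left
      rw [Equiv.eq_symm_apply, ← h]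
    · right; right
      rw [Equiv.eq_symm_apply, ← h]

theorem nodup_ent_trip (e : W ≃ κ × Fin 3) (L : List κ) (hL : L.Nodup) :
    (ent (L.map (trip e))).Nodup := by
  induction L with
  | nil => simp [ent]
  | cons k L ih =>
    rw [List.nodup_cons] at hL
    rw [List.map_cons, ent_cons]
    have h1 : ∀ i : Fin 3, e.symm (k, i) ∉ ent (L.map (trip e)) := by
      intro i hi
      rw [mem_ent_trip] at hi
      simp at hi
      exact hL.1 hi
    have h2 : ∀ i j : Fin 3, i ≠ j → e.symm (k, i) ≠ e.symm (k, j) := by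
      intro i j hij h
      exact hij (congrArg Prod.snd (e.symm.injective h))
    simp only [List.nodup_cons, List.mem_cons, not_or, trip]
    exact ⟨⟨h2 _ _ (by decide), h2 _ _ (by decide), h1 0⟩, ⟨h2 _ _ (by decide), h1 1⟩, h1 2,
      ih hL.2⟩

theorem block_inj (e : W ≃ κ × Fin 3) (f : W → Fin 3) (k : κ) (i : Fin 3)
    (h1 : f (e.symm (k, i)) ≠ f (e.symm (k, i + 1)))
    (h2 : f (e.symm (k, i)) ≠ f (e.symm (k, i + 2)))
    (h3 : f (e.symm (k, i + 1)) ≠ f (e.symm (k, i + 2))) (u v : W) (hu : (e u).1 = k)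
    (hv : (e v).1 = k) (huv : f u = f v) : u = v := by
  have c3 : ∀ i j : Fin 3, j = i ∨ j = i + 1 ∨ j = i + 2 := by decide
  have eu : u = e.symm (k, (e u).2) := by
    rw [Equiv.eq_symm_apply, ← hu]
  have ev : v = e.symm (k, (e v).2) := by
    rw [Equiv.eq_symm_apply, ← hv]
  rcases c3 i (e u).2 with a | a | a <;> rcases c3 i (e v).2 with b | b | b <;>
    rw [a] at eu <;> rw [b] at ev <;> rw [eu, ev] at huv ⊢
  · exact absurd huv h1
  · exact absurd huv h2
  · exact absurd huv.symm h1
  · exact absurd huv h3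
  · exact absurd huv.symm h2
  · exact absurd huv.symm h3

/-- Path version for equivalences. -/
theorem path_blocks (e : W ≃ κ × Fin 3) (l : List W) (hl : l.Nodup) (hall : ∀ w, w ∈ l) :
    ∃ f : W → Fin 3, (∀ u v, Cons2 l u v → f u ≠ f v) ∧
      ∀ u v, (e u).1 = (e v).1 → f u = f v → u = v := by
  obtain ⟨f, h1, h2⟩ := path_exists l ((Finset.univ : Finset κ).toList.map (trip e)) hl
    (nodup_ent_trip e _ (Finset.nodup_toList _)) (fun x _ => hall x)
  refine ⟨f, h1, fun u v huv hf => ?_⟩
  have h3 := h2 (trip e (e u).1) (List.mem_map_of_mem (by simp))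
  exact block_inj e f (e u).1 0 h3.1 h3.2.1 h3.2.2 u v rfl huv.symm hf

/-- Cycle version for equivalences. -/
theorem cycle_blocks (e : W ≃ κ × Fin 3) (x0 : W) (l : List W) (hl : (x0 :: l).Nodup)
    (hall : ∀ w, w ≠ x0 → w ∈ l) :
    ∃ f : W → Fin 3, (∀ u v, Cons2 l u v → f u ≠ f v) ∧
      (∀ x l', l = x :: l' → f x0 ≠ f x) ∧ (∀ x l', l = l' ++ [x] → f x ≠ f x0) ∧
      ∀ u v, (e u).1 = (e v).1 → f u = f v → u = v := by
  set k0 := (e x0).1 with hk0
  set i0 := (e x0).2 with hi0
  set p := e.symm (k0, i0 + 1) with hp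
  set q := e.symm (k0, i0 + 2) with hq
  have ex : x0 = e.symm (k0, i0) := by
    rw [Equiv.eq_symm_apply]
  have c3 : ∀ i : Fin 3, i ≠ i + 1 ∧ i ≠ i + 2 ∧ i + 1 ≠ i + 2 := by decide
  have h2 : ∀ i j : Fin 3, i ≠ j → e.symm (k0, i) ≠ e.symm (k0, j) := by
    intro i j hij h
    exact hij (congrArg Prod.snd (e.symm.injective h))
  have n1 : x0 ≠ p := by
    rw [ex]
    exact h2 _ _ (c3 i0).1
  have n2 : x0 ≠ q := by
    rw [ex]
    exact h2 _ _ (c3 i0).2.1
  have n3 : p ≠ q := h2 _ _ (c3 i0).2.2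
  set L := (Finset.univ.erase k0 : Finset κ).toList with hL
  have hkL : k0 ∉ L := by simp [hL]
  have h1 : ∀ i : Fin 3, e.symm (k0, i) ∉ ent (L.map (trip e)) := by
    intro i hi
    rw [mem_ent_trip] at hi
    simp only [Equiv.apply_symm_apply] at hi
    exact hkL hi
  have hx0 : x0 ∉ ent (L.map (trip e)) := by
    rw [ex]
    exact h1 _
  obtain ⟨f, a1, a2, a3, a4, a5⟩ := cycle_exists x0 p q l (L.map (trip e)) hl
    (by
      simp only [List.nodup_cons, List.mem_cons, not_or]
      exact ⟨⟨n1, n2, hx0⟩, ⟨n3, h1 _⟩, h1 _, nodup_ent_trip e _ (Finset.nodup_toList _)⟩)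
    (by
      intro x hx
      apply hall
      rintro rfl
      simp only [List.mem_cons] at hx
      rcases hx with h | h | h
      · exact n1 h
      · exact n2 h
      · exact hx0 h)
  refine ⟨f, a1, a2, a3, fun u v huv hf => ?_⟩
  by_cases hu : (e u).1 = k0
  · refine block_inj e f k0 i0 ?_ ?_ ?_ u v hu (huv ▸ hu) hf
    · rw [← ex]; exact a4.1
    · rw [← ex]; exact a4.2.1
    · exact a4.2.2
  · have h3 := a5 (trip e (e u).1) (List.mem_map_of_mem (by simp [hL, hu]))
    exact block_inj e f (e u).1 0 h3.1 h3.2.1 h3.2.2 u v rfl huv.symm hf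

/-! ### Two involutions -/

/-- A permutation whose square is the identity and which has no fixed point gives a two-colouring
of its support; here on a quotient. -/
theorem two_involutions {W : Type*} (P M : W → W) (hP : ∀ w, P (P w) = w)
    (hPf : ∀ w, P w ≠ w) (hM : ∀ w, M (M w) = w) (hMf : ∀ w, M w ≠ w) :
    ∃ c : W → Bool, (∀ w, c (P w) = !c w) ∧ ∀ w, c (M w) = !c w := by
  classical
  let Pe : Equiv.Perm W := ⟨P, P, hP, hP⟩
  let Me : Equiv.Perm W := ⟨M, M, hM, hM⟩
  let σ : Equiv.Perm W := Pe * Me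
  have hσ : ∀ w, σ w = P (M w) := fun w => rfl
  have hPe2 : Pe * Pe = 1 := by
    ext w
    exact hP w
  have hMe2 : Me * Me = 1 := by
    ext w
    exact hM w
  have hconj : ∀ k : ℤ, Pe * σ ^ k = σ ^ (-k) * Pe := by
    have hPinv : Pe⁻¹ = Pe := by
      rw [inv_eq_iff_mul_eq_one]
      exact hPe2
    have hMinv : Me⁻¹ = Me := by
      rw [inv_eq_iff_mul_eq_one]
      exact hMe2
    have h1 : Pe * σ * Pe⁻¹ = σ⁻¹ := by
      simp only [σ, mul_inv_rev, hPinv, hMinv]
      rw [← mul_assoc, hPe2, one_mul]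
    intro k
    have h2 : Pe * σ ^ k * Pe⁻¹ = σ⁻¹ ^ k := by
      rw [← h1, conj_zpow]
    rw [zpow_neg, ← inv_zpow, ← h2]
    simp [mul_assoc]
  have key : ∀ w, ¬ σ.SameCycle w (P w) := by
    rintro w ⟨k, hk⟩
    rcases Int.even_or_odd' k with ⟨j, hj | hj⟩
    · -- P has a fixed point
      have h1 : P ((σ ^ j) w) = (σ ^ j) w := by
        have h2 : (Pe * σ ^ j) w = (σ ^ (-j) * Pe) w := by rw [hconj]
        have h3 : (σ ^ (-j) * Pe) w = (σ ^ (-j)) (P w) := rfl
        have h4 : (σ ^ (-j)) ((σ ^ k) w) = (σ ^ j) w := by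
          rw [← Equiv.Perm.mul_apply, ← zpow_add]
          congr 2
          omega
        have h5 : (Pe * σ ^ j) w = P ((σ ^ j) w) := rfl
        rw [← h5, h2, h3, ← hk, h4]
      exact hPf _ h1
    · have h1 : P ((σ ^ j) w) = P (M ((σ ^ j) w)) := by
        have h2 : (Pe * σ ^ j) w = (σ ^ (-j) * Pe) w := by rw [hconj]
        have h3 : (σ ^ (-j) * Pe) w = (σ ^ (-j)) (P w) := rfl
        have h4 : (σ ^ (-j)) ((σ ^ k) w) = σ ((σ ^ j) w) := by
          rw [← Equiv.Perm.mul_apply, ← zpow_add, ← Equiv.Perm.mul_apply, ← zpow_one_add]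
          congr 2
          omega
        have h5 : (Pe * σ ^ j) w = P ((σ ^ j) w) := rfl
        rw [← h5, h2, h3, ← hk, h4, hσ]
      have h6 : (σ ^ j) w = M ((σ ^ j) w) := by
        have := congrArg P h1
        rwa [hP, hP] at this
      exact hMf _ h6.symm
  let s : Setoid W := Equiv.Perm.SameCycle.setoid σ
  have hPs : ∀ a b, σ.SameCycle a b → σ.SameCycle (P a) (P b) := by
    rintro a b ⟨k, rfl⟩
    refine ⟨-k, ?_⟩
    have h2 : (Pe * σ ^ k) a = (σ ^ (-k) * Pe) a := by rw [hconj]
    exact h2.symm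
  let Pq : Quotient s → Quotient s := Quotient.map P hPs
  let r : LinearOrder (Quotient s) := linearOrderOfSTO WellOrderingRel
  let c : W → Bool := fun w => decide ((Quotient.mk s w) < (Quotient.mk s (P w)))
  have hne : ∀ w, Quotient.mk s w ≠ Quotient.mk s (P w) := by
    intro w h
    exact key w (Quotient.exact h)
  have hcP : ∀ w, c (P w) = !c w := by
    intro w
    simp only [c, hP]
    rcases lt_or_gt_of_ne (hne w) with h | h
    · simp [h, not_lt_of_gt h]
    · simp [h, not_lt_of_gt h]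
  have hcσ : ∀ w, c (P (M w)) = c w := by
    intro w
    have h1 : Quotient.mk s (P (M w)) = Quotient.mk s w := by
      apply Quotient.sound
      exact ⟨-1, by rw [← hσ]; simp⟩
    have h2 : Quotient.mk s (P (P (M w))) = Quotient.mk s (P w) := by
      apply Quotient.sound
      apply hPs
      exact ⟨-1, by rw [← hσ]; simp⟩
    simp only [c, h1, h2]
  refine ⟨c, hcP, fun w => ?_⟩
  have h1 := hcP (M w)
  rw [hcσ] at h1
  rw [h1]
  simp

/-- The same with a second involution which may have fixed points. -/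
theorem two_involutions' {W : Type*} (P M : W → W) (hP : ∀ w, P (P w) = w)
    (hPf : ∀ w, P w ≠ w) (hM : ∀ w, M (M w) = w) :
    ∃ c : W → Bool, (∀ w, c (P w) = !c w) ∧ ∀ w, M w ≠ w → c (M w) = !c w := by
  classical
  let P' : W × Bool → W × Bool := fun x => (P x.1, x.2)
  let M' : W × Bool → W × Bool := fun x => if M x.1 = x.1 then (x.1, !x.2) else (M x.1, x.2)
  obtain ⟨c, h1, h2⟩ := two_involutions P' M' (fun w => by simp [P', hP])
    (fun w h => hPf w.1 (congrArg Prod.fst h))
    (by
      intro w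
      by_cases h : M w.1 = w.1
      · simp [M', h]
      · simp only [M', h, if_false, hM]
        rw [if_neg (fun hh => h hh.symm)])
    (by
      intro w
      by_cases h : M w.1 = w.1
      · simp only [M', h, if_true]
        intro hh
        have := congrArg Prod.snd hh
        simp at this
      · simp only [M', h, if_false]
        intro hh
        exact h (congrArg Prod.fst hh))
  refine ⟨fun w => c (w, false), fun w => h1 (w, false), fun w hw => ?_⟩
  have := h2 (w, false)
  simpa [M', hw] using this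

end SC
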