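import Pool.Agent.Helper95.SC.Main1

set_option linter.unusedSectionVars false

namespace SC

open Finset

theorem strongOn_mono {W : Type} {G H : SimpleGraph W} {k : ℕ} (h : G ≤ H) (hs : StrongOn H k) :
    StrongOn G k := by
  intro s hk
  obtain ⟨c, h1, h2⟩ := hs s hk
  exact ⟨c, fun u v huv => h1 u v (h huv), h2⟩

theorem three_of_ncard {V : Type} [Finite V] (F : SimpleGraph V)
    (hF : ∀ v, (F.neighborSet v).ncard ≤ 2) (x a b c : V) (ha : F.Adj x a) (hb : F.Adj x b)
    (hc : F.Adj x c) : a = b ∨ a = c ∨ b = c := by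
  classical
  by_contra hcon
  simp only [not_or] at hcon
  obtain ⟨h1, h2, h3⟩ := hcon
  have h4 : ({a, b, c} : Set V) ⊆ F.neighborSet x := by
    intro z hz
    simp only [Set.mem_insert_iff, Set.mem_singleton_iff] at hz
    rcases hz with rfl | rfl | rfl
    · exact ha
    · exact hb
    · exact hc
  have h5 := Set.ncard_le_ncard h4 (Set.toFinite _)
  have h6 : ({a, b, c} : Set V).ncard = 3 := by
    rw [Set.ncard_eq_three]
    exact ⟨a, b, c, h1, h2, h3, rfl⟩
  have := hF x
  omega

theorem two_of_ncard {V : Type} [Finite V] (F : SimpleGraph V)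
    (hF : ∀ v, (F.neighborSet v).ncard ≤ 1) (x a b : V) (ha : F.Adj x a) (hb : F.Adj x b) :
    a = b := by
  classical
  have h := (Set.ncard_le_one (Set.toFinite _)).1 (hF x)
  exact h a ha b hb

theorem product_pad {V : Type} [Fintype V] (G H F : SimpleGraph V) (r a : ℕ)
    (hG : ∀ u v, G.Adj u v → H.Adj u v ∨ F.Adj u v)
    (hF : ∀ v, (F.neighborSet v).ncard ≤ 2) (hc : CycleChord F H)
    (hH : Sys (pad H r) a) : StrongOn (pad G r) (a * 3) := by
  classical
  have h1 := product (pad H r) (pad F r) a hH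
    (fun g hg => lists H F r a (three_of_ncard F hF) hc g hg)
  refine strongOn_mono ?_ (strongOn_of_sys _ _ h1)
  intro u v huv
  obtain ⟨x, y, rfl, rfl, hxy⟩ := pad_adj G r u v huv
  rcases hG x y hxy with h | h
  · exact Or.inl ((pad_adj_inl H r x y).2 h)
  · exact Or.inr ((pad_adj_inl F r x y).2 h)

/-- Part A. -/
theorem partA {V : Type} [Fintype V] (G F M : SimpleGraph V)
    (hG : ∀ u v, G.Adj u v → M.Adj u v ∨ F.Adj u v)
    (hF : ∀ v, (F.neighborSet v).ncard ≤ 2) (hM : ∀ v, (M.neighborSet v).ncard ≤ 1)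
    (hc : CycleChord F M) : StronglyColourable G 6 := by
  classical
  unfold StronglyColourable
  refine product_pad G M F _ 2 hG hF hc (sys_matching _ ?_)
  intro x a b ha hb
  obtain ⟨x1, a1, rfl, rfl, h1⟩ := pad_adj _ _ _ _ ha
  obtain ⟨x2, b1, hx, rfl, h2⟩ := pad_adj _ _ _ _ hb
  have : x1 = x2 := Sum.inl_injective hx
  subst this
  rw [two_of_ncard M hM x1 a1 b1 h1 h2]

theorem pad_eq_zero {a n : ℕ} (ha : 0 < a) (h : a ∣ n) : a * ((n + a - 1) / a) - n = 0 := by
  obtain ⟨m, rfl⟩ := h
  have h1 : (a * m + a - 1) / a = m := by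
    have : a * m + a - 1 = (a - 1) + a * m := by omega
    rw [this, Nat.add_mul_div_left _ _ ha, Nat.div_eq_of_lt (by omega)]
    simp
  rw [h1]
  simp

/-- The product theorem. -/
theorem partE {V : Type} [Fintype V] (G H F : SimpleGraph V) (a : ℕ) (ha : 0 < a)
    (hn : 3 * a ∣ Fintype.card V) (hG : ∀ u v, G.Adj u v → H.Adj u v ∨ F.Adj u v)
    (hF : ∀ v, (F.neighborSet v).ncard ≤ 2) (hc : CycleChord F H)
    (hH : StronglyColourable H a) : StronglyColourable G (3 * a) := by
  classical
  unfold StronglyColourable at hH ⊢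
  rw [pad_eq_zero ha (dvd_trans (dvd_mul_left a 3) hn)] at hH
  rw [pad_eq_zero (by omega) hn, mul_comm 3 a]
  exact product_pad G H F 0 a hG hF hc (sys_of_strongOn _ _ hH)

/-! ### Walks -/

theorem cons2_of_edges {V : Type} {C : SimpleGraph V} {u w : V} (p : C.Walk u w) {x y : V}
    (h : s(x, y) ∈ p.edges) : Cons2 p.support x y ∨ Cons2 p.support y x := by
  induction p with
  | nil => simp at h
  | @cons u v w hadj p ih =>
    rw [SimpleGraph.Walk.edges_cons, List.mem_cons] at h
    rw [SimpleGraph.Walk.support_cons]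
    rcases h with h | h
    · have h1 : ∃ t, p.support = v :: t := ⟨p.support.tail, (SimpleGraph.Walk.cons_tail_support p).symm⟩
      obtain ⟨t, ht⟩ := h1
      rw [ht]
      rcases Sym2.eq_iff.1 h with ⟨rfl, rfl⟩ | ⟨rfl, rfl⟩
      · exact Or.inl ⟨[], t, rfl⟩
      · exact Or.inr ⟨[], t, rfl⟩
    · rcases ih h with h | h
      · obtain ⟨pre, post, hp⟩ := h
        exact Or.inl ⟨u :: pre, post, by rw [hp]; rfl⟩
      · obtain ⟨pre, post, hp⟩ := h
        exact Or.inr ⟨u :: pre, post, by rw [hp]; rfl⟩

theorem cons2_cyc {V : Type} {a x y : V} {l : List V} (h : Cons2 (a :: (l ++ [a])) x y) :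
    (x = a ∧ y = a) ∨ (x = a ∧ ∃ l', l = y :: l') ∨ (y = a ∧ ∃ l', l = l' ++ [x]) ∨
      Cons2 l x y := by
  obtain ⟨pre, post, h⟩ := h
  cases pre with
  | nil =>
    simp only [List.nil_append, List.cons.injEq] at h
    obtain ⟨rfl, h⟩ := h
    cases l with
    | nil =>
      simp only [List.nil_append, List.cons.injEq] at h
      exact Or.inl ⟨rfl, h.1.symm⟩
    | cons z l =>
      simp only [List.cons_append, List.cons.injEq] at h
      exact Or.inr (Or.inl ⟨rfl, l, by rw [h.1]⟩)
  | cons z pre =>
    simp only [List.cons_append, List.cons.injEq] at h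
    obtain ⟨rfl, h⟩ := h
    rcases List.eq_nil_or_concat post with hp | ⟨post', b, hp⟩
    · subst hp
      have h' : l ++ [a] = (pre ++ [x]) ++ [y] := by rw [h]; simp
      have h2 := List.append_inj' h' rfl
      refine Or.inr (Or.inr (Or.inl ⟨?_, pre, h2.1⟩))
      simpa using h2.2.symm
    · subst hp
      have h' : l ++ [a] = (pre ++ x :: y :: post') ++ [b] := by rw [h]; simp
      have h2 := List.append_inj' h' rfl
      exact Or.inr (Or.inr (Or.inr ⟨pre, post', h2.1⟩))

/-- Hamiltonian cycles: the Fleischner-Stiebitz theorem in the form used here. -/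
theorem sys_cycle {V : Type} [Fintype V] [DecidableEq V] (C : SimpleGraph V) (a : V)
    (p : C.Walk a a) (hp : p.IsHamiltonianCycle) (hC : ∀ u v, C.Adj u v → s(u, v) ∈ p.edges) :
    Sys (pad C 0) 3 := by
  intro κ _ _ e
  have hcyc := hp.isCycle
  -- the list
  have hsup : p.support = a :: p.support.tail := (SimpleGraph.Walk.cons_tail_support p).symm
  have hnd : p.support.tail.Nodup := hcyc.support_nodup
  have hne : p.support.tail ≠ [] := by
    intro h
    have h1 := p.length_support
    have h3 := congrArg List.length hsup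
    rw [h] at h3
    have h2 := hcyc.three_le_length
    simp only [List.length_cons, List.length_nil] at h3
    omega
  have hlast : p.support.tail.getLast hne = a := by
    exact (List.getLast_tail hne).trans p.getLast_support
  set l := p.support.tail.dropLast with hl
  have htail : p.support.tail = l ++ [a] := by
    rw [hl]
    have := List.dropLast_append_getLast hne
    rw [hlast] at this
    exact this.symm
  have hperm : (l ++ [a]).Perm (a :: l) := List.perm_append_singleton a l
  have hnd' : (a :: l).Nodup := by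
    rw [← hperm.nodup_iff, ← htail]
    exact hnd
  have hmem : ∀ v, v ∈ a :: l := by
    intro v
    have h1 := hp.mem_support v
    rw [hsup, htail] at h1
    simp only [List.mem_cons, List.mem_append, List.not_mem_nil, or_false] at h1 ⊢
    tauto
  obtain ⟨f, h1, h2, h3, h4⟩ := cycle_blocks e (Sum.inl a) (l.map Sum.inl)
    (by
      have : (Sum.inl a :: l.map Sum.inl : List (V ⊕ Fin 0)) = (a :: l).map Sum.inl := rfl
      rw [this]
      exact hnd'.map Sum.inl_injective)
    (by
      intro w hw
      cases w with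
      | inl v =>
        have h5 : v ≠ a := fun h => hw (by rw [h])
        have h6 := hmem v
        rw [List.mem_cons] at h6
        exact List.mem_map_of_mem (h6.resolve_left h5)
      | inr i => exact i.elim0)
  have key : ∀ x y, C.Adj x y → Cons2 p.support x y → f (Sum.inl x) ≠ f (Sum.inl y) := by
    intro x y hxy hcons
    rw [hsup, htail] at hcons
    rcases cons2_cyc hcons with ⟨rfl, rfl⟩ | ⟨rfl, l', hl'⟩ | ⟨rfl, l', hl'⟩ | h5
    · exact absurd hxy (C.loopless.irrefl _)
    · exact h2 (Sum.inl y) (l'.map Sum.inl) (by rw [hl']; simp)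
    · exact h3 (Sum.inl x) (l'.map Sum.inl) (by rw [hl']; simp)
    · exact h1 _ _ (cons2_map Sum.inl h5)
  refine ⟨f, ?_, h4⟩
  intro u v huv
  obtain ⟨x, y, rfl, rfl, hxy⟩ := pad_adj C 0 u v huv
  rcases cons2_of_edges p (hC x y hxy) with h | h
  · exact key x y hxy h
  · exact (key y x hxy.symm h).symm

/-- Part D. -/
theorem partD {V : Type} [Fintype V] [DecidableEq V] (G C F : SimpleGraph V) (a : V)
    (p : C.Walk a a) (hp : p.IsHamiltonianCycle) (hC : ∀ u v, C.Adj u v → s(u, v) ∈ p.edges)
    (hn : 9 ∣ Fintype.card V) (hG : ∀ u v, G.Adj u v → C.Adj u v ∨ F.Adj u v)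
    (hF : ∀ v, (F.neighborSet v).ncard ≤ 2) (hc : CycleChord F C) :
    StronglyColourable G 9 := by
  unfold StronglyColourable
  rw [pad_eq_zero (by omega) hn]
  exact product_pad G C F 0 3 hG hF hc (sys_cycle C a p hp hC)

/-- In a graph consisting of one Hamiltonian cycle every cycle is Hamiltonian. -/
theorem ham_all {V : Type} [Fintype V] [DecidableEq V] (C : SimpleGraph V) (a : V)
    (p : C.Walk a a) (hp : p.IsHamiltonianCycle) (hC : ∀ u v, C.Adj u v → s(u, v) ∈ p.edges)
    (v : V) (q : C.Walk v v) (hq : q.IsCycle) (x : V) : x ∈ q.support := by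
  have hnb : ∀ x, C.neighborSet x = p.toSubgraph.neighborSet x := by
    intro x
    ext y
    constructor
    · intro h
      exact (SimpleGraph.Walk.adj_toSubgraph_iff_mem_edges).2 (hC x y h)
    · intro h
      exact p.toSubgraph.adj_sub h
  have hcard : ∀ x, (C.neighborSet x).ncard = 2 := by
    intro x
    rw [hnb]
    exact hp.isCycle.ncard_neighborSet_toSubgraph_eq_two (hp.mem_support x)
  have hclosed : ∀ x ∈ q.support, ∀ y, C.Adj x y → y ∈ q.support := by
    intro x hx y hxy
    have h1 := hq.ncard_neighborSet_toSubgraph_eq_two hx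
    have h2 : q.toSubgraph.neighborSet x ⊆ C.neighborSet x := fun z hz => q.toSubgraph.adj_sub hz
    have h3 : q.toSubgraph.neighborSet x = C.neighborSet x :=
      Set.eq_of_subset_of_ncard_le h2 (by rw [h1, hcard]) (Set.toFinite _)
    have h4 : y ∈ q.toSubgraph.neighborSet x := by
      rw [h3]
      exact hxy
    exact q.mem_verts_toSubgraph.1 (q.toSubgraph.edge_vert h4.symm)
  have hreach : ∀ (u w : V) (r : C.Walk u w), u ∈ q.support → w ∈ q.support := by
    intro u w r
    induction r with
    | nil => exact fun h => h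
    | cons h r ih => exact fun hu => ih (hclosed _ hu _ h)
  have h1 : a ∈ q.support := by
    have r := (p.takeUntil v (hp.mem_support v)).reverse
    exact hreach v a r q.start_mem_support
  exact hreach a x (p.takeUntil x (hp.mem_support x)) h1

/-- The graph formed by the edges of a walk. -/
def walkGraph {V : Type} {G : SimpleGraph V} {a b : V} (p : G.Walk a b) : SimpleGraph V :=
  SimpleGraph.fromEdgeSet {e | e ∈ p.edges}

theorem walkGraph_adj {V : Type} {G : SimpleGraph V} {a b : V} (p : G.Walk a b) (x y : V) :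
    (walkGraph p).Adj x y ↔ s(x, y) ∈ p.edges := by
  unfold walkGraph
  rw [SimpleGraph.fromEdgeSet_adj]
  constructor
  · exact fun h => h.1
  · intro h
    exact ⟨h, (p.adj_of_mem_edges h).ne⟩

theorem walkGraph_le {V : Type} {G : SimpleGraph V} {a b : V} (p : G.Walk a b) :
    walkGraph p ≤ G := by
  intro x y h
  exact p.adj_of_mem_edges ((walkGraph_adj p x y).1 h)

theorem walkGraph_walk {V : Type} [Fintype V] [DecidableEq V] {G : SimpleGraph V} {a : V}
    (p : G.Walk a a) (hp : p.IsHamiltonianCycle) :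
    ∃ p' : (walkGraph p).Walk a a, p'.IsHamiltonianCycle ∧
      ∀ u v, (walkGraph p).Adj u v → s(u, v) ∈ p'.edges := by
  have h1 : ∀ e ∈ p.edges, e ∈ (walkGraph p).edgeSet := by
    intro e he
    induction e with
    | h x y => exact (walkGraph_adj p x y).2 he
  refine ⟨p.transfer _ h1, ?_, ?_⟩
  · rw [SimpleGraph.Walk.isHamiltonianCycle_iff_isCycle_and_length_eq]
    refine ⟨hp.isCycle.transfer h1, ?_⟩
    rw [SimpleGraph.Walk.length_transfer]
    exact hp.length_eq
  · intro u v huv
    rw [SimpleGraph.Walk.edges_transfer]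
    exact (walkGraph_adj p u v).1 huv

theorem ncard_walkGraph {V : Type} [Fintype V] [DecidableEq V] {G : SimpleGraph V} {a : V}
    (p : G.Walk a a) (hp : p.IsHamiltonianCycle) (x : V) :
    ((walkGraph p).neighborSet x).ncard = 2 := by
  have hnb : (walkGraph p).neighborSet x = p.toSubgraph.neighborSet x := by
    ext y
    constructor
    · intro h
      exact (SimpleGraph.Walk.adj_toSubgraph_iff_mem_edges).2 ((walkGraph_adj p x y).1 h)
    · intro h
      exact (walkGraph_adj p x y).2 ((SimpleGraph.Walk.adj_toSubgraph_iff_mem_edges).1 h)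
  rw [hnb]
  exact hp.isCycle.ncard_neighborSet_toSubgraph_eq_two (hp.mem_support x)

/-- Part B. -/
theorem partB {V : Type} [Fintype V] [DecidableEq V] (G : SimpleGraph V)
    (hG : G.IsHamiltonian) (hd : ∀ v, (G.neighborSet v).ncard ≤ 3)
    (hx : ∃ v, (G.neighborSet v).ncard = 3) : StronglyColourable G 6 := by
  obtain ⟨x, hx⟩ := hx
  have hne : Fintype.card V ≠ 1 := by
    intro h
    have h1 : ∀ x y : V, x = y := Fintype.card_le_one_iff.1 h.le
    have h2 : G.neighborSet x = ∅ := by
      ext y
      simp only [SimpleGraph.mem_neighborSet, Set.mem_empty_iff_false, iff_false]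
      intro hy
      exact hy.ne (h1 _ _)
    rw [h2] at hx
    simp at hx
  obtain ⟨a, p, hp⟩ := hG hne
  obtain ⟨p', hp', hC⟩ := walkGraph_walk p hp
  let C := walkGraph p
  let M := G \ C
  have hMn : ∀ v, (M.neighborSet v).ncard + 2 = (G.neighborSet v).ncard := by
    intro v
    have h1 : M.neighborSet v = G.neighborSet v \ C.neighborSet v := by
      ext y
      simp [M]
    have h2 : C.neighborSet v ⊆ G.neighborSet v := fun y hy => walkGraph_le p hy
    have h3 := Set.ncard_sdiff_add_ncard_of_subset h2 (Set.toFinite _)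
    rw [h1, ← h3, ncard_walkGraph p hp v]
  refine partA G C M ?_ ?_ ?_ ?_
  · intro u v huv
    by_cases h : C.Adj u v
    · exact Or.inr h
    · exact Or.inl ⟨huv, h⟩
  · intro v
    exact (ncard_walkGraph p hp v).le
  · intro v
    have h1 := hMn v
    have h2 := hd v
    omega
  · intro v q hq
    have h1 := hMn x
    have h2 : (M.neighborSet x).ncard = 1 := by omega
    obtain ⟨y, hy⟩ := Set.ncard_eq_one.1 h2
    have h3 : M.Adj x y := by
      have : y ∈ M.neighborSet x := by rw [hy]; exact Set.mem_singleton y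
      exact this
    exact ⟨x, ham_all C a p' hp' hC v q hq x, y, ham_all C a p' hp' hC v q hq y, h3⟩

/-- Two Hamiltonian cycles. -/
theorem partD' {V : Type} [Fintype V] [DecidableEq V] (G : SimpleGraph V) (a : V)
    (p q : G.Walk a a) (hp : p.IsHamiltonianCycle) (hq : q.IsHamiltonianCycle)
    (hG : ∀ e ∈ G.edgeSet, e ∈ p.edges ∨ e ∈ q.edges) (hn : 9 ∣ Fintype.card V) :
    StronglyColourable G 9 := by
  obtain ⟨p', hp', hp2⟩ := walkGraph_walk p hp
  obtain ⟨q', hq', hq2⟩ := walkGraph_walk q hq
  refine partD G (walkGraph p) (walkGraph q) a p' hp' hp2 hn ?_ ?_ ?_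
  · intro u v huv
    rcases hG s(u, v) huv with h | h
    · exact Or.inl ((walkGraph_adj p u v).2 h)
    · exact Or.inr ((walkGraph_adj q u v).2 h)
  · intro v
    exact (ncard_walkGraph q hq v).le
  · intro v r hr
    have h1 : ((walkGraph p).neighborSet a).ncard = 2 := ncard_walkGraph p hp a
    obtain ⟨y, hy⟩ : ((walkGraph p).neighborSet a).Nonempty := by
      apply Set.nonempty_of_ncard_ne_zero
      omega
    exact ⟨a, ham_all (walkGraph q) a q' hq' hq2 v r hr a, y,
      ham_all (walkGraph q) a q' hq' hq2 v r hr y, hy⟩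

end SC
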