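import Pool.Agent.Helper95.SC.Main3

/-!
# Strong chromatic number at most nine for some graphs of maximum degree four

The graph is the union of a linear forest `L` (or, if nine divides the number of vertices, of a
Hamiltonian cycle `C`) and a graph `F` in which every vertex has at most two neighbours, such that
every cycle of `F` contains both ends of an edge of `L` (of `C`).  In particular the union of two
Hamiltonian cycles is strongly `9`-colourable when nine divides the number of vertices.
-/

namespace Pool.Agent.Helper95.SC.NineCor

open _root_.SC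

theorem strongNine :
    (∀ (V : Type) [Fintype V] (G L F : SimpleGraph V), G = L ⊔ F →
      (∀ v, (L.neighborSet v).ncard ≤ 2) → L.IsAcyclic →
      (∀ v, (F.neighborSet v).ncard ≤ 2) → CycleChord F L →
      StronglyColourable G 9 ∧ schi G ≤ 9) ∧
    (∀ (V : Type) [Fintype V] [DecidableEq V] (G C F : SimpleGraph V) (a : V) (p : C.Walk a a),
      p.IsHamiltonianCycle → (∀ u v, C.Adj u v → s(u, v) ∈ p.edges) →
      9 ∣ Fintype.card V → G = C ⊔ F → (∀ v, (F.neighborSet v).ncard ≤ 2) → CycleChord F C →
      StronglyColourable G 9 ∧ schi G ≤ 9) ∧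
    (∀ (V : Type) [Fintype V] [DecidableEq V] (G : SimpleGraph V) (a : V) (p q : G.Walk a a),
      p.IsHamiltonianCycle → q.IsHamiltonianCycle →
      (∀ e ∈ G.edgeSet, e ∈ p.edges ∨ e ∈ q.edges) → 9 ∣ Fintype.card V →
      StronglyColourable G 9 ∧ schi G ≤ 9) := by
  refine ⟨?_, ?_, ?_⟩
  · intro V _ G L F hG hL hac hF hc
    have h : StronglyColourable G 9 := by
      refine partF G L F ?_ hL hac hF hc
      intro u v huv
      rw [hG] at huv
      exact huv
    exact ⟨h, schi_le G 9 (by norm_num) h⟩
  · intro V _ _ G C F a p hp hC hn hG hF hc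
    have h : StronglyColourable G 9 := by
      refine partD G C F a p hp hC hn ?_ hF hc
      intro u v huv
      rw [hG] at huv
      exact huv
    exact ⟨h, schi_le G 9 (by norm_num) h⟩
  · intro V _ _ G a p q hp hq hG hn
    have h : StronglyColourable G 9 := partD' G a p q hp hq hG hn
    exact ⟨h, schi_le G 9 (by norm_num) h⟩

end Pool.Agent.Helper95.SC.NineCor
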