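import Mathlib

/-!
# A parity theorem for rainbow triples along a path or a cycle

Colours are elements of `Fin 3`.  We count, modulo two, the functions `f` such that consecutive
members of a list have different colours and given disjoint triples are rainbow.
-/

set_option linter.unusedSectionVars false

namespace SC

open Finset

variable {α : Type*} [Fintype α] [DecidableEq α]

/-- `1` if the two colours differ and `0` if they agree, modulo two. -/
def ne3 (a b : Fin 3) : ZMod 2 := if a = b then 0 else 1

/-- `1` if the three colours are pairwise different, `0` otherwise. -/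
def rb (a b c : Fin 3) : ZMod 2 := ne3 a b * ne3 a c * ne3 b c

/-- Indicator that the colour `a` is the colour `b`. -/
def eq3 (a b : Fin 3) : ZMod 2 := if a = b then 1 else 0

/-- Product of the `ne3` along the colours `c`, colours of `l`, `d`. -/
def chain (f : α → Fin 3) (d : Fin 3) : Fin 3 → List α → ZMod 2
  | c, [] => ne3 c d
  | c, x :: l => ne3 c (f x) * chain f d (f x) l

/-- Product along an initial piece. -/
def pw (f : α → Fin 3) : Fin 3 → List α → ZMod 2
  | _, [] => 1
  | c, x :: l => ne3 c (f x) * pw f (f x) l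

/-- Last colour of an initial piece. -/
def endc (f : α → Fin 3) : Fin 3 → List α → Fin 3
  | c, [] => c
  | _, x :: l => endc f (f x) l

/-- First colour of a final piece. -/
def hd (f : α → Fin 3) (d : Fin 3) : List α → Fin 3
  | [] => d
  | x :: _ => f x

/-- Remaining product of a final piece. -/
def tl (f : α → Fin 3) (d : Fin 3) : List α → ZMod 2
  | [] => 1
  | x :: l => chain f d (f x) l

theorem chain_eq (f : α → Fin 3) (d a : Fin 3) (l : List α) :
    chain f d a l = ne3 a (hd f d l) * tl f d l := by
  cases l <;> simp [chain, hd, tl]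

theorem chain_append (f : α → Fin 3) (d c : Fin 3) (l m : List α) :
    chain f d c (l ++ m) = pw f c l * chain f d (endc f c l) m := by
  induction l generalizing c with
  | nil => simp [pw, endc]
  | cons x l ih => simp [pw, endc, chain, ih, mul_assoc]

theorem chain_update (f : α → Fin 3) (d c : Fin 3) (l : List α) (x : α) (a : Fin 3)
    (h : x ∉ l) : chain (Function.update f x a) d c l = chain f d c l := by
  induction l generalizing c with
  | nil => simp [chain]
  | cons y l ih =>
    simp only [List.mem_cons, not_or] at h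
    have hy : Function.update f x a y = f y := Function.update_of_ne (Ne.symm h.1) _ _
    simp [chain, hy, ih _ h.2]

theorem pw_update (f : α → Fin 3) (c : Fin 3) (l : List α) (x : α) (a : Fin 3)
    (h : x ∉ l) : pw (Function.update f x a) c l = pw f c l := by
  induction l generalizing c with
  | nil => simp [pw]
  | cons y l ih =>
    simp only [List.mem_cons, not_or] at h
    have hy : Function.update f x a y = f y := Function.update_of_ne (Ne.symm h.1) _ _
    simp [pw, hy, ih _ h.2]

theorem endc_update (f : α → Fin 3) (c : Fin 3) (l : List α) (x : α) (a : Fin 3)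
    (h : x ∉ l) : endc (Function.update f x a) c l = endc f c l := by
  induction l generalizing c with
  | nil => simp [endc]
  | cons y l ih =>
    simp only [List.mem_cons, not_or] at h
    have hy : Function.update f x a y = f y := Function.update_of_ne (Ne.symm h.1) _ _
    simp [endc, hy, ih _ h.2]

theorem hd_update (f : α → Fin 3) (d : Fin 3) (l : List α) (x : α) (a : Fin 3)
    (h : x ∉ l) : hd (Function.update f x a) d l = hd f d l := by
  cases l with
  | nil => simp [hd]
  | cons y l =>
    simp only [List.mem_cons, not_or] at h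
    have hy : Function.update f x a y = f y := Function.update_of_ne (Ne.symm h.1) _ _
    simp [hd, hy]

theorem tl_update (f : α → Fin 3) (d : Fin 3) (l : List α) (x : α) (a : Fin 3)
    (h : x ∉ l) : tl (Function.update f x a) d l = tl f d l := by
  cases l with
  | nil => simp [tl]
  | cons y l =>
    simp only [List.mem_cons, not_or] at h
    have hy : Function.update f x a y = f y := Function.update_of_ne (Ne.symm h.1) _ _
    simp [tl, hy, chain_update _ _ _ _ _ _ h.2]

/-- Summing over all functions may be done by first resampling one value. -/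
theorem sum_update (g : (α → Fin 3) → ZMod 2) (x : α) :
    ∑ f, g f = ∑ f, ∑ a, g (Function.update f x a) := by
  have h1 : ∑ f : α → Fin 3, ∑ a : Fin 3, g (Function.update f x a)
      = ∑ fa : (α → Fin 3) × Fin 3, g (Function.update fa.1 x fa.2) := by
    rw [Fintype.sum_prod_type]
  have h2 : ∑ fa : (α → Fin 3) × Fin 3, g (Function.update fa.1 x fa.2)
      = ∑ fa : (α → Fin 3) × Fin 3, g fa.1 := by
    let e : (α → Fin 3) × Fin 3 ≃ (α → Fin 3) × Fin 3 :=
      { toFun := fun fa => (Function.update fa.1 x fa.2, fa.1 x)
        invFun := fun fa => (Function.update fa.1 x fa.2, fa.1 x)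
        left_inv := fun fa => by simp
        right_inv := fun fa => by simp }
    exact Fintype.sum_equiv e _ _ (fun fa => rfl)
  rw [h1, h2, Fintype.sum_prod_type]
  refine Finset.sum_congr rfl (fun f _ => ?_)
  simp only [Finset.sum_const, Finset.card_univ, Fintype.card_fin]
  have h3 : ((3 : ℕ) : ZMod 2) = 1 := by decide
  rw [nsmul_eq_mul, h3, one_mul]

/-- The entries of a list of triples. -/
def ent (T : List (α × α × α)) : List α := T.flatMap (fun t => [t.1, t.2.1, t.2.2])

/-- Product of the rainbow indicators. -/
def wT (f : α → Fin 3) (T : List (α × α × α)) : ZMod 2 :=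
  (T.map (fun t => rb (f t.1) (f t.2.1) (f t.2.2))).prod

/-- Product of the indicators of the prescribed colours. -/
def wP (f : α → Fin 3) (P : List (α × Fin 3)) : ZMod 2 :=
  (P.map (fun t => eq3 (f t.1) t.2)).prod

/-- The weighted count. -/
def Z (c d : Fin 3) (l : List α) (T : List (α × α × α)) (P : List (α × Fin 3)) : ZMod 2 :=
  ∑ f : α → Fin 3, chain f d c l * wT f T * wP f P

theorem wT_update (f : α → Fin 3) (T : List (α × α × α)) (x : α) (a : Fin 3)
    (h : x ∉ ent T) : wT (Function.update f x a) T = wT f T := by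
  induction T with
  | nil => rfl
  | cons t T ih =>
    simp only [ent, List.flatMap_cons, List.mem_append, List.mem_cons, List.not_mem_nil,
      or_false, not_or] at h
    have h1 : Function.update f x a t.1 = f t.1 := Function.update_of_ne (Ne.symm h.1.1) _ _
    have h2 : Function.update f x a t.2.1 = f t.2.1 := Function.update_of_ne (Ne.symm h.1.2.1) _ _
    have h3 : Function.update f x a t.2.2 = f t.2.2 := Function.update_of_ne (Ne.symm h.1.2.2) _ _
    have := ih h.2
    simp only [wT, List.map_cons, List.prod_cons, h1, h2, h3] at this ⊢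
    rw [this]

theorem wP_update (f : α → Fin 3) (P : List (α × Fin 3)) (x : α) (a : Fin 3)
    (h : x ∉ P.map Prod.fst) : wP (Function.update f x a) P = wP f P := by
  induction P with
  | nil => rfl
  | cons t T ih =>
    simp only [List.map_cons, List.mem_cons, not_or] at h
    have h1 : Function.update f x a t.1 = f t.1 := Function.update_of_ne (Ne.symm h.1) _ _
    have := ih h.2
    simp only [wP, List.map_cons, List.prod_cons, h1] at this ⊢
    rw [this]

/-! ### The local identities -/

theorem loc_free (u v : Fin 3) : ∑ a : Fin 3, ne3 u a * ne3 a v = ne3 u v := by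
  revert u v; decide

theorem loc_triple (u v : Fin 3) : ∑ a : Fin 3, ∑ b : Fin 3, ∑ e : Fin 3,
    ne3 u a * (ne3 a b * (ne3 b e * ne3 e v)) * rb a b e = ne3 u v := by
  revert u v; decide

theorem loc_same (u v q : Fin 3) : ∑ a : Fin 3, ∑ b : Fin 3,
    ne3 u a * (ne3 a b * ne3 b v) * rb a b q
      = ∑ a : Fin 3, ∑ b : Fin 3, ne3 u b * (ne3 b a * ne3 a v) * rb a b q := by
  revert u v q; decide

theorem loc_ss (u v a b : Fin 3) (h : a ≠ b) :
    ne3 u a * (ne3 a b * ne3 b v) + ne3 u b * (ne3 b a * ne3 a v) = ne3 u v := by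
  revert u v a b; decide

theorem loc_ts (u v p q b : Fin 3) :
    ∑ a : Fin 3, (ne3 u a * (ne3 a b * ne3 b v) + ne3 u b * (ne3 b a * ne3 a v)) * rb a p q
      = ne3 u v * (eq3 p b + eq3 q b) := by
  revert u v p q b; decide

theorem loc_tt0 (u v a b : Fin 3) :
    ne3 u a * (ne3 a b * ne3 b v) + ne3 u b * (ne3 b a * ne3 a v) = ne3 a b * ne3 u v := by
  revert u v a b; decide

theorem loc_tt1 (p q r s : Fin 3) : ∑ a : Fin 3, ∑ b : Fin 3, ne3 a b * (rb a p q * rb b r s)
      = rb p r s + rb q r s := by
  revert p q r s; decide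

/-! ### Global consequences -/

/-- Splitting the chain at one position. -/
theorem chain_split (f : α → Fin 3) (c d : Fin 3) (pre post : List α) (x : α) :
    chain f d c (pre ++ x :: post)
      = pw f c pre * tl f d post * (ne3 (endc f c pre) (f x) * ne3 (f x) (hd f d post)) := by
  rw [chain_append]
  simp only [chain]
  rw [chain_eq f d (f x) post]
  ring

theorem chain_split0 (f : α → Fin 3) (c d : Fin 3) (pre post : List α) :
    chain f d c (pre ++ post)
      = pw f c pre * tl f d post * ne3 (endc f c pre) (hd f d post) := by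
  rw [chain_append, chain_eq f d _ post]
  ring

theorem chain_split2 (f : α → Fin 3) (c d : Fin 3) (pre post : List α) (x y : α) :
    chain f d c (pre ++ x :: y :: post)
      = pw f c pre * tl f d post *
        (ne3 (endc f c pre) (f x) * (ne3 (f x) (f y) * ne3 (f y) (hd f d post))) := by
  rw [chain_append]
  simp only [chain]
  rw [chain_eq f d (f y) post]
  ring

/-- A vertex without a constraint may be deleted. -/
theorem remove_free (c d : Fin 3) (pre post : List α) (x : α) (T : List (α × α × α))
    (P : List (α × Fin 3)) (h1 : x ∉ pre) (h2 : x ∉ post) (hT : x ∉ ent T)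
    (hP : x ∉ P.map Prod.fst) :
    Z c d (pre ++ x :: post) T P = Z c d (pre ++ post) T P := by
  unfold Z
  rw [sum_update _ x]
  refine Finset.sum_congr rfl (fun f _ => ?_)
  have key : ∀ a : Fin 3, chain (Function.update f x a) d c (pre ++ x :: post)
      * wT (Function.update f x a) T * wP (Function.update f x a) P
      = (pw f c pre * tl f d post * wT f T * wP f P) *
        (ne3 (endc f c pre) a * ne3 a (hd f d post)) := by
    intro a
    rw [chain_split, pw_update _ _ _ _ _ h1, tl_update _ _ _ _ _ h2, endc_update _ _ _ _ _ h1,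
      hd_update _ _ _ _ _ h2, wT_update _ _ _ _ hT, wP_update _ _ _ _ hP, Function.update_self]
    ring
  rw [Finset.sum_congr rfl (fun a _ => key a), ← Finset.mul_sum, loc_free, chain_split0]
  ring

/-- Update two values. -/
def up2 (f : α → Fin 3) (x y : α) (a b : Fin 3) : α → Fin 3 :=
  Function.update (Function.update f x a) y b

theorem sum_up2 (g : (α → Fin 3) → ZMod 2) (x y : α) :
    ∑ f, g f = ∑ f, ∑ a, ∑ b, g (up2 f x y a b) := by
  rw [sum_update g y, sum_update (fun f => ∑ b, g (Function.update f y b)) x]
  rfl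

theorem up2_left (f : α → Fin 3) {x y : α} (h : x ≠ y) (a b : Fin 3) : up2 f x y a b x = a := by
  unfold up2
  rw [Function.update_of_ne h, Function.update_self]

theorem up2_right (f : α → Fin 3) (x y : α) (a b : Fin 3) : up2 f x y a b y = b := by
  unfold up2
  rw [Function.update_self]

theorem up2_other (f : α → Fin 3) {x y q : α} (h1 : x ≠ q) (h2 : y ≠ q) (a b : Fin 3) :
    up2 f x y a b q = f q := by
  unfold up2
  rw [Function.update_of_ne h2.symm, Function.update_of_ne h1.symm]

/-- The data of a position not involving `x` and `y`. -/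
structure Away (pre post : List α) (x : α) : Prop where
  pre : x ∉ pre
  post : x ∉ post

theorem chain_up2 (f : α → Fin 3) (c d : Fin 3) (pre post : List α) {x y : α} (hxy : x ≠ y)
    (hx : Away pre post x) (hy : Away pre post y) (a b : Fin 3) :
    chain (up2 f x y a b) d c (pre ++ x :: y :: post)
      = pw f c pre * tl f d post *
        (ne3 (endc f c pre) a * (ne3 a b * ne3 b (hd f d post))) := by
  rw [chain_split2, up2_left f hxy, up2_right]
  unfold up2
  rw [pw_update _ _ _ _ _ hy.pre, pw_update _ _ _ _ _ hx.pre,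
      tl_update _ _ _ _ _ hy.post, tl_update _ _ _ _ _ hx.post, endc_update _ _ _ _ _ hy.pre,
      endc_update _ _ _ _ _ hx.pre, hd_update _ _ _ _ _ hy.post, hd_update _ _ _ _ _ hx.post]

theorem chain_up2' (f : α → Fin 3) (c d : Fin 3) (pre post : List α) {x y : α} (hxy : x ≠ y)
    (hx : Away pre post x) (hy : Away pre post y) (a b : Fin 3) :
    chain (up2 f x y a b) d c (pre ++ y :: x :: post)
      = pw f c pre * tl f d post *
        (ne3 (endc f c pre) b * (ne3 b a * ne3 a (hd f d post))) := by
  rw [chain_split2, up2_left f hxy, up2_right]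
  unfold up2
  rw [pw_update _ _ _ _ _ hy.pre, pw_update _ _ _ _ _ hx.pre,
      tl_update _ _ _ _ _ hy.post, tl_update _ _ _ _ _ hx.post, endc_update _ _ _ _ _ hy.pre,
      endc_update _ _ _ _ _ hx.pre, hd_update _ _ _ _ _ hy.post, hd_update _ _ _ _ _ hx.post]

theorem wT_up2 (f : α → Fin 3) (T : List (α × α × α)) (x y : α) (a b : Fin 3)
    (hx : x ∉ ent T) (hy : y ∉ ent T) : wT (up2 f x y a b) T = wT f T := by
  unfold up2
  rw [wT_update _ _ _ _ hy, wT_update _ _ _ _ hx]

theorem wP_up2 (f : α → Fin 3) (P : List (α × Fin 3)) (x y : α) (a b : Fin 3)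
    (hx : x ∉ P.map Prod.fst) (hy : y ∉ P.map Prod.fst) : wP (up2 f x y a b) P = wP f P := by
  unfold up2
  rw [wP_update _ _ _ _ hy, wP_update _ _ _ _ hx]

theorem wT_cons (f : α → Fin 3) (t : α × α × α) (T : List (α × α × α)) :
    wT f (t :: T) = rb (f t.1) (f t.2.1) (f t.2.2) * wT f T := rfl

theorem wP_cons (f : α → Fin 3) (t : α × Fin 3) (P : List (α × Fin 3)) :
    wP f (t :: P) = eq3 (f t.1) t.2 * wP f P := rfl

/-- Two neighbours in the same triple may be swapped. -/
theorem swap_same (c d : Fin 3) (pre post : List α) (x y q : α) (T : List (α × α × α))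
    (P : List (α × Fin 3)) (hxy : x ≠ y) (hxq : x ≠ q) (hyq : y ≠ q)
    (hx : Away pre post x) (hy : Away pre post y)
    (hxT : x ∉ ent T) (hyT : y ∉ ent T) (hxP : x ∉ P.map Prod.fst) (hyP : y ∉ P.map Prod.fst) :
    Z c d (pre ++ x :: y :: post) ((x, y, q) :: T) P
      = Z c d (pre ++ y :: x :: post) ((x, y, q) :: T) P := by
  unfold Z
  rw [sum_up2 _ x y, sum_up2 (fun f => chain f d c (pre ++ y :: x :: post) * _ * _) x y]
  refine Finset.sum_congr rfl (fun f _ => ?_)
  have h := loc_same (endc f c pre) (hd f d post) (f q)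
  have h' := congrArg (fun t => (pw f c pre * tl f d post * wT f T * wP f P) * t) h
  simp only [Finset.mul_sum] at h'
  refine Eq.trans (Finset.sum_congr rfl (fun a _ => Finset.sum_congr rfl (fun b _ => ?_)))
    (h'.trans (Finset.sum_congr rfl (fun a _ => Finset.sum_congr rfl (fun b _ => ?_))))
  · rw [chain_up2 f c d pre post hxy hx hy, wT_cons, wT_up2 _ _ _ _ _ _ hxT hyT,
      wP_up2 _ _ _ _ _ _ hxP hyP, up2_left f hxy, up2_right, up2_other f hxq hyq]
    ring
  · rw [chain_up2' f c d pre post hxy hx hy, wT_cons, wT_up2 _ _ _ _ _ _ hxT hyT,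
      wP_up2 _ _ _ _ _ _ hxP hyP, up2_left f hxy, up2_right, up2_other f hxq hyq]
    ring

/-- Swapping two neighbours of different triples. -/
theorem swap_tt (c d : Fin 3) (pre post : List α) (x p q y r s : α) (T : List (α × α × α))
    (P : List (α × Fin 3)) (hxy : x ≠ y) (hxp : x ≠ p) (hxq : x ≠ q) (hxr : x ≠ r) (hxs : x ≠ s)
    (hyp : y ≠ p) (hyq : y ≠ q) (hyr : y ≠ r) (hys : y ≠ s)
    (hx : Away pre post x) (hy : Away pre post y)
    (hxT : x ∉ ent T) (hyT : y ∉ ent T) (hxP : x ∉ P.map Prod.fst) (hyP : y ∉ P.map Prod.fst) :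
    Z c d (pre ++ x :: y :: post) ((x, p, q) :: (y, r, s) :: T) P
      + Z c d (pre ++ y :: x :: post) ((x, p, q) :: (y, r, s) :: T) P
      = Z c d (pre ++ post) ((p, r, s) :: T) P + Z c d (pre ++ post) ((q, r, s) :: T) P := by
  unfold Z
  rw [← Finset.sum_add_distrib, ← Finset.sum_add_distrib, sum_up2 _ x y]
  refine Finset.sum_congr rfl (fun f _ => ?_)
  have h := loc_tt1 (f p) (f q) (f r) (f s)
  have h' := congrArg (fun t => (pw f c pre * tl f d post * wT f T * wP f P
    * ne3 (endc f c pre) (hd f d post)) * t) h
  simp only [Finset.mul_sum] at h'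
  refine Eq.trans (Finset.sum_congr rfl (fun a _ => Finset.sum_congr rfl (fun b _ => ?_)))
    (h'.trans ?_)
  · rw [chain_up2 f c d pre post hxy hx hy, chain_up2' f c d pre post hxy hx hy, wT_cons, wT_cons,
      wT_up2 _ _ _ _ _ _ hxT hyT,
      wP_up2 _ _ _ _ _ _ hxP hyP, up2_left f hxy, up2_right, up2_other f hxp hyp,
      up2_other f hxq hyq, up2_other f hxr hyr, up2_other f hxs hys]
    have h0 := loc_tt0 (endc f c pre) (hd f d post) a b
    linear_combination (pw f c pre * tl f d post * wT f T * wP f P * (rb a (f p) (f q)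
      * rb b (f r) (f s))) * h0
  · simp only [wT_cons, chain_split0]
    ring

/-- Swapping a member of a triple with a prescribed vertex. -/
theorem swap_ts (c d : Fin 3) (pre post : List α) (x p q y : α) (e : Fin 3)
    (T : List (α × α × α))
    (P : List (α × Fin 3)) (hxy : x ≠ y) (hxp : x ≠ p) (hxq : x ≠ q)
    (hyp : y ≠ p) (hyq : y ≠ q)
    (hx : Away pre post x) (hy : Away pre post y)
    (hxT : x ∉ ent T) (hyT : y ∉ ent T) (hxP : x ∉ P.map Prod.fst) (hyP : y ∉ P.map Prod.fst) :
    Z c d (pre ++ x :: y :: post) ((x, p, q) :: T) ((y, e) :: P)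
      + Z c d (pre ++ y :: x :: post) ((x, p, q) :: T) ((y, e) :: P)
      = Z c d (pre ++ post) T ((p, e) :: P) + Z c d (pre ++ post) T ((q, e) :: P) := by
  unfold Z
  rw [← Finset.sum_add_distrib, ← Finset.sum_add_distrib, sum_up2 _ x y]
  refine Finset.sum_congr rfl (fun f _ => ?_)
  have h := loc_ts (endc f c pre) (hd f d post) (f p) (f q) e
  have h' := congrArg (fun t => (pw f c pre * tl f d post * wT f T * wP f P) * t) h
  simp only [Finset.mul_sum] at h'
  refine Eq.trans (Finset.sum_congr rfl (fun a _ => ?_))
    (h'.trans ?_)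
  · rw [Finset.sum_eq_single e]
    · rw [chain_up2 f c d pre post hxy hx hy, chain_up2' f c d pre post hxy hx hy, wT_cons, wP_cons,
        wT_up2 _ _ _ _ _ _ hxT hyT,
        wP_up2 _ _ _ _ _ _ hxP hyP, up2_left f hxy, up2_right, up2_other f hxp hyp,
        up2_other f hxq hyq]
      simp only [eq3, if_true]
      ring
    · intro b _ hb
      rw [wP_cons, up2_right]
      simp [eq3, hb]
    · intro hh
      exact absurd (Finset.mem_univ _) hh
  · simp only [wP_cons, chain_split0]
    ring

/-- Swapping two prescribed vertices of different colours. -/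
theorem swap_ss (c d : Fin 3) (pre post : List α) (x y : α) (e e' : Fin 3)
    (T : List (α × α × α)) (P : List (α × Fin 3)) (hxy : x ≠ y) (hee : e ≠ e')
    (hx : Away pre post x) (hy : Away pre post y)
    (hxT : x ∉ ent T) (hyT : y ∉ ent T) (hxP : x ∉ P.map Prod.fst) (hyP : y ∉ P.map Prod.fst) :
    Z c d (pre ++ x :: y :: post) T ((x, e) :: (y, e') :: P)
      + Z c d (pre ++ y :: x :: post) T ((x, e) :: (y, e') :: P)
      = Z c d (pre ++ post) T P := by
  unfold Z
  rw [← Finset.sum_add_distrib, sum_up2 _ x y]
  refine Finset.sum_congr rfl (fun f _ => ?_)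
  have h := loc_ss (endc f c pre) (hd f d post) e e' hee
  rw [Finset.sum_eq_single e]
  · rw [Finset.sum_eq_single e']
    · rw [chain_up2 f c d pre post hxy hx hy, chain_up2' f c d pre post hxy hx hy, wP_cons, wP_cons,
        wT_up2 _ _ _ _ _ _ hxT hyT,
        wP_up2 _ _ _ _ _ _ hxP hyP, up2_left f hxy, up2_right, chain_split0]
      simp only [eq3, if_true]
      linear_combination (pw f c pre * tl f d post * wT f T * wP f P) * h
    · intro b _ hb
      simp only [wP_cons, up2_right]
      simp [eq3, hb]
    · intro hh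
      exact absurd (Finset.mem_univ _) hh
  · intro a _ ha
    refine Finset.sum_eq_zero (fun b _ => ?_)
    simp only [wP_cons, up2_left f hxy]
    simp [eq3, ha]
  · intro hh
    exact absurd (Finset.mem_univ _) hh

end SC
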