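import Pool.Agent.Helper95.SC.Parity

set_option linter.unusedSectionVars false

namespace SC

open Finset

variable {α : Type*} [Fintype α] [DecidableEq α]

theorem Z_congr_T (c d : Fin 3) (l : List α) (T T' : List (α × α × α)) (P : List (α × Fin 3))
    (h : ∀ f : α → Fin 3, wT f T = wT f T') : Z c d l T P = Z c d l T' P := by
  unfold Z
  exact Finset.sum_congr rfl (fun f _ => by rw [h f])

/-- A consecutive triple may be deleted. -/
theorem triple_front (c d : Fin 3) (pre post : List α) (x y z : α) (T : List (α × α × α))
    (P : List (α × Fin 3)) (hxy : x ≠ y) (hxz : x ≠ z) (hyz : y ≠ z)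
    (hx : Away pre post x) (hy : Away pre post y) (hz : Away pre post z)
    (hxT : x ∉ ent T) (hyT : y ∉ ent T) (hzT : z ∉ ent T)
    (hxP : x ∉ P.map Prod.fst) (hyP : y ∉ P.map Prod.fst) (hzP : z ∉ P.map Prod.fst) :
    Z c d (pre ++ x :: y :: z :: post) ((x, y, z) :: T) P = Z c d (pre ++ post) T P := by
  unfold Z
  rw [sum_up2 _ x y, sum_update (fun f => ∑ a, ∑ b, _) z]
  refine Finset.sum_congr rfl (fun f _ => ?_)
  have h := loc_triple (endc f c pre) (hd f d post)
  have h' := congrArg (fun t => (pw f c pre * tl f d post * wT f T * wP f P) * t) h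
  simp only [Finset.mul_sum] at h'
  rw [Finset.sum_comm]
  refine Eq.trans (Finset.sum_congr rfl (fun a _ => ?_)) (h'.trans ?_)
  · rw [Finset.sum_comm]
    refine Finset.sum_congr rfl (fun b _ => Finset.sum_congr rfl (fun e _ => ?_))
    set f0 := Function.update f z e with hf0
    have hxpost : x ∉ z :: post := by
      intro hh
      rcases List.mem_cons.1 hh with hh | hh
      · exact hxz hh
      · exact hx.post hh
    have hypost : y ∉ z :: post := by
      intro hh
      rcases List.mem_cons.1 hh with hh | hh
      · exact hyz hh
      · exact hy.post hh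
    rw [chain_up2 f0 c d pre (z :: post) hxy ⟨hx.pre, hxpost⟩ ⟨hy.pre, hypost⟩, wT_cons,
      wT_up2 _ _ _ _ _ _ hxT hyT, wP_up2 _ _ _ _ _ _ hxP hyP, up2_left f0 hxy, up2_right,
      up2_other f0 hxz hyz]
    have e1 : f0 z = e := by rw [hf0, Function.update_self]
    have e2 : hd f0 d (z :: post) = e := by simp [hd, e1]
    have e3 : tl f0 d (z :: post) = ne3 e (hd f d post) * tl f d post := by
      have e31 : tl f0 d (z :: post) = chain f0 d (f0 z) post := rfl
      rw [e31, e1, hf0, chain_update _ _ _ _ _ _ hz.post, chain_eq]
    have e4 : wT f0 T = wT f T := by rw [hf0, wT_update _ _ _ _ hzT]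
    have e5 : wP f0 P = wP f P := by rw [hf0, wP_update _ _ _ _ hzP]
    have e6 : pw f0 c pre = pw f c pre := by rw [hf0, pw_update _ _ _ _ _ hz.pre]
    have e7 : endc f0 c pre = endc f c pre := by rw [hf0, endc_update _ _ _ _ _ hz.pre]
    rw [e1, e2, e3, e4, e5, e6, e7]
    ring
  · rw [chain_split0]
    ring

/-- Two prescribed vertices at the beginning. -/
theorem special_front (d : Fin 3) (post : List α) (x y : α) (T : List (α × α × α))
    (hxy : x ≠ y) (hx : x ∉ post) (hy : y ∉ post) (hxT : x ∉ ent T) (hyT : y ∉ ent T) :
    Z 0 d (x :: y :: post) T [(x, 1), (y, 2)] = Z 2 d post T [] := by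
  unfold Z
  rw [sum_up2 _ x y]
  refine Finset.sum_congr rfl (fun f _ => ?_)
  rw [Finset.sum_eq_single 1]
  · rw [Finset.sum_eq_single 2]
    · rw [wP_cons, wP_cons, wT_up2 _ _ _ _ _ _ hxT hyT]
      simp only [chain]
      rw [up2_left f hxy, up2_right]
      have : chain (up2 f x y 1 2) d 2 post = chain f d 2 post := by
        unfold up2
        rw [chain_update _ _ _ _ _ _ hy, chain_update _ _ _ _ _ _ hx]
      rw [this]
      simp only [eq3, if_true, wP, List.map_nil, List.prod_nil]
      have h1 : ne3 0 1 = 1 := by decide
      have h2 : ne3 1 2 = 1 := by decide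
      rw [h1, h2]
      ring
    · intro b _ hb
      simp only [wP_cons, up2_right]
      simp [eq3, hb]
    · intro hh
      exact absurd (Finset.mem_univ _) hh
  · intro a _ ha
    refine Finset.sum_eq_zero (fun b _ => ?_)
    simp only [wP_cons, up2_left f hxy]
    simp [eq3, ha]
  · intro hh
    exact absurd (Finset.mem_univ _) hh

/-! ### Rearranging the list of triples -/

theorem rb_swap12 (a b c : Fin 3) : rb a b c = rb b a c := by revert a b c; decide

theorem rb_rot (a b c : Fin 3) : rb a b c = rb c a b := by revert a b c; decide

theorem ent_cons (t : α × α × α) (T : List (α × α × α)) :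
    ent (t :: T) = t.1 :: t.2.1 :: t.2.2 :: ent T := by
  simp [ent]

theorem extract {T : List (α × α × α)} {x : α} (hx : x ∈ ent T) :
    ∃ p q T', (ent T).Perm (ent ((x, p, q) :: T')) ∧ T'.length + 1 = T.length ∧
      ∀ f : α → Fin 3, wT f T = wT f ((x, p, q) :: T') := by
  induction T with
  | nil => simp [ent] at hx
  | cons t T ih =>
    rw [ent_cons] at hx
    rcases List.mem_cons.1 hx with h | h
    · subst h
      exact ⟨t.2.1, t.2.2, T, List.Perm.refl _, rfl, fun f => rfl⟩
    · rcases List.mem_cons.1 h with h | h
      · subst h
        refine ⟨t.1, t.2.2, T, ?_, rfl, fun f => ?_⟩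
        · rw [ent_cons, ent_cons]
          exact List.Perm.swap _ _ _
        · rw [wT_cons, wT_cons]
          simp only
          rw [rb_swap12]
      · rcases List.mem_cons.1 h with h | h
        · subst h
          refine ⟨t.1, t.2.1, T, ?_, rfl, fun f => ?_⟩
          · rw [ent_cons, ent_cons]
            simp only
            exact ((List.Perm.swap _ _ _).cons _).trans (List.Perm.swap _ _ _)
          · rw [wT_cons, wT_cons]
            simp only
            rw [rb_rot]
        · obtain ⟨p, q, T', h1, h2, h3⟩ := ih h
          refine ⟨p, q, t :: T', ?_, ?_, fun f => ?_⟩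
          · rw [ent_cons t T, ent_cons (x, p, q), ent_cons t T']
            rw [ent_cons] at h1
            simp only at h1 ⊢
            have h4 : (t.1 :: t.2.1 :: t.2.2 :: ent T).Perm
                ([t.1, t.2.1, t.2.2] ++ (x :: p :: q :: ent T')) := by
              exact ((h1.cons _).cons _).cons _
            refine h4.trans ?_
            have h5 : ([t.1, t.2.1, t.2.2] ++ ([x, p, q] ++ ent T')).Perm
                ([x, p, q] ++ ([t.1, t.2.1, t.2.2] ++ ent T')) := by
              rw [← List.append_assoc, ← List.append_assoc]
              exact List.Perm.append_right _ List.perm_append_comm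
            exact h5
          · simp only [List.length_cons]
            omega
          · rw [wT_cons, h3 f, wT_cons, wT_cons, wT_cons]
            ring

/-! ### Permutation invariance -/

/-- From adjacent swaps to permutations. -/
theorem perm_of_swap {β : Type*} (F : List α → β) (S : List α)
    (hs : ∀ pre x y post, (pre ++ x :: y :: post).Nodup →
      (∀ z ∈ S, z ∈ pre ++ x :: y :: post) →
      F (pre ++ x :: y :: post) = F (pre ++ y :: x :: post))
    {l l' : List α} (h : l.Perm l') :
    ∀ pre, (pre ++ l).Nodup → (∀ z ∈ S, z ∈ pre ++ l) → F (pre ++ l) = F (pre ++ l') := by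
  induction h with
  | nil => intro pre _ _; rfl
  | cons x _ ih =>
    intro pre h1 h2
    have := ih (pre ++ [x]) (by simpa using h1) (by simpa using h2)
    simpa using this
  | swap x y l =>
    intro pre h1 h2
    exact hs pre y x l h1 h2
  | trans ha hb iha ihb =>
    intro pre h1 h2
    rw [iha pre h1 h2]
    refine ihb pre ?_ ?_
    · exact (List.Perm.nodup_iff (List.Perm.append_left pre ha)).1 h1
    · intro z hz
      exact (List.Perm.mem_iff (List.Perm.append_left pre ha)).1 (h2 z hz)

theorem two_eq (v : ZMod 2) : v + v = 0 := by revert v; decide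

theorem eq_of_add (v w : ZMod 2) (h : v + w = 0) : v = w := by revert v w; decide

theorem remove_swap_left (c d : Fin 3) (pre post : List α) (x y : α) (T : List (α × α × α))
    (P : List (α × Fin 3)) (hnd : (pre ++ x :: y :: post).Nodup) (hT : x ∉ ent T)
    (hP : x ∉ P.map Prod.fst) :
    Z c d (pre ++ x :: y :: post) T P = Z c d (pre ++ y :: x :: post) T P := by
  have h := hnd
  rw [List.nodup_append] at h
  obtain ⟨_, h2, h3⟩ := h
  have hxpre : x ∉ pre := fun hx => h3 x hx x (by simp) rfl
  rw [List.nodup_cons] at h2
  have hxp : x ∉ y :: post := h2.1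
  have hxy : x ≠ y := fun hh => hxp (by simp [hh])
  have hxpost : x ∉ post := fun hh => hxp (List.mem_cons_of_mem _ hh)
  rw [remove_free c d pre (y :: post) x T P hxpre hxp hT hP]
  have : pre ++ y :: x :: post = (pre ++ [y]) ++ x :: post := by simp
  rw [this, remove_free c d (pre ++ [y]) post x T P (by simp [hxpre, hxy]) hxpost hT hP]
  simp

theorem remove_swap_right (c d : Fin 3) (pre post : List α) (x y : α) (T : List (α × α × α))
    (P : List (α × Fin 3)) (hnd : (pre ++ x :: y :: post).Nodup) (hT : y ∉ ent T)
    (hP : y ∉ P.map Prod.fst) :
    Z c d (pre ++ x :: y :: post) T P = Z c d (pre ++ y :: x :: post) T P := by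
  have hnd' : (pre ++ y :: x :: post).Nodup :=
    (List.Perm.nodup_iff (List.Perm.append_left pre (List.Perm.swap y x post))).1 hnd
  exact (remove_swap_left c d pre post y x T P hnd' hT hP).symm

theorem away_of_nodup {pre post : List α} {x y : α} (hnd : (pre ++ x :: y :: post).Nodup) :
    Away pre post x ∧ Away pre post y ∧ x ≠ y ∧ (pre ++ post).Nodup := by
  have h := hnd
  rw [List.nodup_append] at h
  obtain ⟨h1, h2, h3⟩ := h
  have h2' := h2
  rw [List.nodup_cons, List.nodup_cons] at h2
  obtain ⟨h4, h5, h6⟩ := h2
  refine ⟨⟨fun hx => h3 x hx x (by simp) rfl, fun hh => h4 (List.mem_cons_of_mem _ hh)⟩,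
    ⟨fun hx => h3 y hx y (by simp) rfl, h5⟩, fun hh => h4 (by simp [hh]), ?_⟩
  rw [List.nodup_append]
  exact ⟨h1, h6, fun a ha b hb => h3 a ha b (by simp [hb])⟩

/-- Swapping inside one triple, all positions. -/
theorem swap_same' (c d : Fin 3) (pre post : List α) (x y p q : α) (T : List (α × α × α))
    (P : List (α × Fin 3)) (hnd : (pre ++ x :: y :: post).Nodup)
    (hn : (ent ((x, p, q) :: T)).Nodup) (hy : y = p ∨ y = q)
    (hxP : x ∉ P.map Prod.fst) (hyP : y ∉ P.map Prod.fst) :
    Z c d (pre ++ x :: y :: post) ((x, p, q) :: T) P
      = Z c d (pre ++ y :: x :: post) ((x, p, q) :: T) P := by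
  obtain ⟨ha, hb, hxy, _⟩ := away_of_nodup hnd
  rw [ent_cons] at hn
  simp only [List.nodup_cons, List.mem_cons, not_or] at hn
  obtain ⟨⟨h1, h2, h3⟩, ⟨h4, h5⟩, h6, h7⟩ := hn
  rcases hy with hy | hy
  · subst hy
    exact swap_same c d pre post x y q T P hxy h2 h4 ha hb h3 h5 hxP hyP
  · subst hy
    have hc : ∀ f : α → Fin 3, wT f ((x, p, y) :: T) = wT f ((x, y, p) :: T) := by
      intro f
      rw [wT_cons, wT_cons]
      congr 1
      have : ∀ a b c : Fin 3, rb a b c = rb a c b := by decide
      exact this _ _ _
    rw [Z_congr_T c d _ _ _ P hc, Z_congr_T c d _ _ _ P hc]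
    exact swap_same c d pre post x y p T P hxy h1 (fun hh => h4 hh.symm) ha hb h3 h6 hxP hyP

/-- **Parity theorem, path version.** -/
theorem path_parity (c d : Fin 3) : ∀ (k : ℕ) (T : List (α × α × α)), T.length = k →
    ∀ l : List α, l.Nodup → (ent T).Nodup → (∀ x ∈ ent T, x ∈ l) → Z c d l T [] = ne3 c d := by
  intro k
  induction k with
  | zero =>
    intro T hT l hl _ _
    have hT' : T = [] := List.length_eq_zero_iff.1 hT
    subst hT'
    induction l with
    | nil =>
      unfold Z
      simp only [chain, wT, wP, List.map_nil, List.prod_nil, mul_one]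
      rw [Finset.sum_const, Finset.card_univ, Fintype.card_fun, Fintype.card_fin, nsmul_eq_mul]
      have h3 : ((3 : ℕ) : ZMod 2) = 1 := by decide
      rw [Nat.cast_pow, h3, one_pow, one_mul]
    | cons x l ih =>
      rw [List.nodup_cons] at hl
      have := remove_free c d [] l x [] [] (by simp) hl.1 (by simp [ent]) (by simp)
      simp only [List.nil_append] at this
      rw [this]
      exact ih hl.2 (by simp [ent])
  | succ k ih =>
    intro T hT l hl hn hsub
    have hswap : ∀ pre x y post, (pre ++ x :: y :: post).Nodup →
        (∀ z ∈ ent T, z ∈ pre ++ x :: y :: post) →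
        Z c d (pre ++ x :: y :: post) T [] = Z c d (pre ++ y :: x :: post) T [] := by
      intro pre x y post hnd hin
      by_cases hx : x ∈ ent T
      · by_cases hy : y ∈ ent T
        · obtain ⟨p, q, T', h1, h2, h3⟩ := extract hx
          have hn' : (ent ((x, p, q) :: T')).Nodup := (List.Perm.nodup_iff h1).1 hn
          obtain ⟨ha, hb, hxy, hnd0⟩ := away_of_nodup hnd
          rw [Z_congr_T c d _ _ _ [] h3, Z_congr_T c d _ _ _ [] h3]
          have hy' : y ∈ ent ((x, p, q) :: T') := (List.Perm.mem_iff h1).1 hy
          rw [ent_cons] at hy'
          rcases List.mem_cons.1 hy' with hy1 | hy1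
          · exact absurd hy1.symm hxy
          · rcases List.mem_cons.1 hy1 with hy2 | hy2
            · exact swap_same' c d pre post x y p q T' [] hnd hn' (Or.inl hy2) (by simp) (by simp)
            · rcases List.mem_cons.1 hy2 with hy3 | hy3
              · exact swap_same' c d pre post x y p q T' [] hnd hn' (Or.inr hy3) (by simp)
                  (by simp)
              · -- different triples
                obtain ⟨r, s, T'', g1, g2, g3⟩ := extract hy3
                have hc : ∀ f : α → Fin 3, wT f ((x, p, q) :: T')
                    = wT f ((x, p, q) :: (y, r, s) :: T'') := by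
                  intro f
                  rw [wT_cons, wT_cons, g3 f]
                rw [Z_congr_T c d _ _ _ [] hc, Z_congr_T c d _ _ _ [] hc]
                have hn'' : (x :: p :: q :: y :: r :: s :: ent T'').Nodup := by
                  rw [ent_cons] at hn'
                  simp only at hn'
                  rw [ent_cons] at g1
                  simp only at g1
                  exact (List.Perm.nodup_iff (((g1.cons q).cons p).cons x)).1 hn'
                have hn3 := hn''
                simp only [List.nodup_cons, List.mem_cons, not_or] at hn3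
                obtain ⟨⟨x1, x2, x3, x4, x5, x6⟩, ⟨p1, p2, p3, p4, p5⟩, ⟨q1, q2, q3, q4⟩,
                  ⟨y1, y2, y3⟩, ⟨r1, r2⟩, s1, t1⟩ := hn3
                have hst := swap_tt c d pre post x p q y r s T'' [] hxy x1 x2 x4 x5
                  (fun hh => p2 hh.symm) (fun hh => q1 hh.symm) y1 y2 ha hb x6 y3
                  (by simp) (by simp)
                -- membership of all entries in the shorter list
                have hin' : ∀ z ∈ (x :: p :: q :: y :: r :: s :: ent T''),
                    z ∈ pre ++ x :: y :: post := by
                  intro z hz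
                  apply hin
                  rw [List.Perm.mem_iff h1, ent_cons]
                  rw [ent_cons] at g1
                  simp only at g1 ⊢
                  exact (List.Perm.mem_iff (((g1.cons q).cons p).cons x)).2 hz
                have hmem : ∀ z, z ∈ (x :: p :: q :: y :: r :: s :: ent T'') → z ≠ x → z ≠ y →
                    z ∈ pre ++ post := by
                  intro z hz hzx hzy
                  have := hin' z hz
                  simp only [List.mem_append, List.mem_cons] at this ⊢
                  tauto
                have i1 : Z c d (pre ++ post) ((p, r, s) :: T'') [] = ne3 c d := by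
                  apply ih
                  · simp only [List.length_cons] at h2 g2 ⊢
                    omega
                  · exact hnd0
                  · rw [ent_cons]
                    simp only [List.nodup_cons, List.mem_cons, not_or]
                    exact ⟨⟨p3, p4, p5⟩, ⟨r1, r2⟩, s1, t1⟩
                  · intro z hz
                    rw [ent_cons] at hz
                    simp only [List.mem_cons] at hz
                    rcases hz with hz | hz | hz | hz
                    · subst hz
                      exact hmem z (by simp) (fun hh => x1 hh.symm) p2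
                    · subst hz
                      exact hmem z (by simp) (fun hh => x4 hh.symm) (fun hh => y1 hh.symm)
                    · subst hz
                      exact hmem z (by simp) (fun hh => x5 hh.symm) (fun hh => y2 hh.symm)
                    · refine hmem z (by simp [hz]) (fun hh => x6 (hh ▸ hz))
                        (fun hh => y3 (hh ▸ hz))
                have i2 : Z c d (pre ++ post) ((q, r, s) :: T'') [] = ne3 c d := by
                  apply ih
                  · simp only [List.length_cons] at h2 g2 ⊢
                    omega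
                  · exact hnd0
                  · rw [ent_cons]
                    simp only [List.nodup_cons, List.mem_cons, not_or]
                    exact ⟨⟨q2, q3, q4⟩, ⟨r1, r2⟩, s1, t1⟩
                  · intro z hz
                    rw [ent_cons] at hz
                    simp only [List.mem_cons] at hz
                    rcases hz with hz | hz | hz | hz
                    · subst hz
                      exact hmem z (by simp) (fun hh => x2 hh.symm) q1
                    · subst hz
                      exact hmem z (by simp) (fun hh => x4 hh.symm) (fun hh => y1 hh.symm)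
                    · subst hz
                      exact hmem z (by simp) (fun hh => x5 hh.symm) (fun hh => y2 hh.symm)
                    · refine hmem z (by simp [hz]) (fun hh => x6 (hh ▸ hz))
                        (fun hh => y3 (hh ▸ hz))
                rw [i1, i2, two_eq] at hst
                exact eq_of_add _ _ hst
        · exact remove_swap_right c d pre post x y T [] hnd hy (by simp)
      · exact remove_swap_left c d pre post x y T [] hnd hx (by simp)
    -- now bring the first triple to the front
    cases T with
    | nil => simp at hT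
    | cons t T0 =>
      have hn' := hn
      rw [ent_cons] at hn'
      simp only [List.nodup_cons, List.mem_cons, not_or] at hn'
      obtain ⟨⟨a1, a2, a3⟩, ⟨b1, b2⟩, c1, d1⟩ := hn'
      have m1 : t.1 ∈ l := hsub _ (by rw [ent_cons]; simp)
      have m2 : t.2.1 ∈ l := hsub _ (by rw [ent_cons]; simp)
      have m3 : t.2.2 ∈ l := hsub _ (by rw [ent_cons]; simp)
      set l1 := l.erase t.1 with hl1
      set l2 := l1.erase t.2.1 with hl2
      set l3 := l2.erase t.2.2 with hl3
      have m2' : t.2.1 ∈ l1 := (List.mem_erase_of_ne (Ne.symm a1)).2 m2
      have m3' : t.2.2 ∈ l1 := (List.mem_erase_of_ne (Ne.symm a2)).2 m3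
      have m3'' : t.2.2 ∈ l2 := (List.mem_erase_of_ne (Ne.symm b1)).2 m3'
      have hp : l.Perm (t.1 :: t.2.1 :: t.2.2 :: l3) :=
        (List.perm_cons_erase m1).trans
          (((List.perm_cons_erase m2').trans ((List.perm_cons_erase m3'').cons _)).cons _)
      have e1 := perm_of_swap (fun l => Z c d l (t :: T0) []) (ent (t :: T0)) hswap hp []
        (by simpa using hl) (by simpa using hsub)
      simp only [List.nil_append] at e1
      rw [e1]
      have hnl : (t.1 :: t.2.1 :: t.2.2 :: l3).Nodup := (List.Perm.nodup_iff hp).1 hl
      simp only [List.nodup_cons, List.mem_cons, not_or] at hnl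
      obtain ⟨⟨_, _, n3⟩, ⟨_, n5⟩, n6, n7⟩ := hnl
      have e2 := triple_front c d [] l3 t.1 t.2.1 t.2.2 T0 [] a1 a2 b1 ⟨by simp, n3⟩
        ⟨by simp, n5⟩ ⟨by simp, n6⟩ a3 b2 c1 (by simp) (by simp) (by simp)
      simp only [List.nil_append] at e2
      have e3 : (t.1, t.2.1, t.2.2) = t := rfl
      rw [e3] at e2
      rw [e2]
      apply ih
      · simpa using hT
      · exact n7
      · exact d1
      · intro z hz
        have hz1 : z ∈ l := hsub _ (by rw [ent_cons]; simp [hz])
        have hz2 : z ∈ t.1 :: t.2.1 :: t.2.2 :: l3 := (List.Perm.mem_iff hp).1 hz1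
        simp only [List.mem_cons] at hz2
        rcases hz2 with h | h | h | h
        · exact absurd hz (h ▸ a3)
        · exact absurd hz (h ▸ b2)
        · exact absurd hz (h ▸ c1)
        · exact h

end SC
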