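import Pool.Agent.Helper95.SC.Main3

/-!
# A product theorem for strong colourings

If `H` is strongly `a`-colourable, `F` has at most two neighbours at every vertex and every cycle
of `F` contains both ends of an edge of `H`, then the union of `H` and `F` is strongly
`3 a`-colourable, provided that `3 a` divides the number of vertices.
-/

namespace Pool.Agent.Helper95.ProductThreeOld

open SC

theorem result (V : Type) [Fintype V] (G H F : SimpleGraph V) (a : ℕ) (ha : 0 < a)
    (hn : 3 * a ∣ Fintype.card V) (hG : G = H ⊔ F)
    (hF : ∀ v, (F.neighborSet v).ncard ≤ 2) (hc : CycleChord F H)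
    (hH : StronglyColourable H a) : StronglyColourable G (3 * a) := by
  refine partE G H F a ha hn ?_ hF hc hH
  intro u v huv
  rw [hG] at huv
  exact huv

end Pool.Agent.Helper95.ProductThreeOld
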